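import Pool.Agent.R82.CP.Mode

/-! Lower bound for the probability that a block of the code forces the pattern. -/

set_option autoImplicit false
open Finset
open scoped Classical

namespace Pool.Agent.R82.CP

variable {q : ℝ}

/-- indicator that the block at `i` is good -/
noncomputable def gi {k : ℕ} (π : Equiv.Perm (Fin k)) (i : ℕ) (c : ℕ → ℕ) : ℝ :=
  if Good π (fun x => c (i + x)) then 1 else 0

theorem block_win {k : ℕ} (π : Equiv.Perm (Fin k)) (hq : 0 ≤ q) (n i : ℕ) (hin : i + k ≤ n)
    (W : ℕ → ℕ → Prop) (hW : ∀ d : ℕ → ℕ, (∀ a, a < k → W a (d a)) → Good π d) :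
    ∏ a ∈ range k, ∑ r ∈ range (i + a + 1), pp q (i + a) r * (if W a r then 1 else 0) ≤
      E q n (gi π i) := by
  set h : ℕ → ℕ → ℝ := fun j r => if i ≤ j ∧ j < i + k then (if W (j - i) r then 1 else 0) else 1
    with hh
  have h1 : E q n (fun c => ∏ j ∈ range n, h j (c j)) ≤ E q n (gi π i) := by
    refine E_mono hq n _ _ fun c _ => ?_
    unfold gi
    split_ifs with hg
    · refine prod_le_one (fun j _ => ?_) (fun j _ => ?_)
      · simp only [hh]; split_ifs <;> norm_num
      · simp only [hh]; split_ifs <;> norm_num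
    · have : ∃ a, a < k ∧ ¬ W a (c (i + a)) := by
        by_contra hcon
        push Not at hcon
        exact hg (hW _ hcon)
      obtain ⟨a, ha, hWa⟩ := this
      refine le_of_eq (prod_eq_zero (i := i + a) (mem_range.2 (by omega)) ?_)
      simp only [hh]
      rw [if_pos ⟨by omega, by omega⟩, show i + a - i = a by omega, if_neg hWa]
  refine le_trans (le_of_eq ?_) h1
  rw [E_prod]
  have h2 : ∏ j ∈ range n, ∑ r ∈ range (j + 1), pp q j r * h j r =
      ∏ j ∈ Ico i (i + k), ∑ r ∈ range (j + 1), pp q j r * h j r := by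
    symm
    refine prod_subset (fun j hj => ?_) (fun j _ hj => ?_)
    · rw [mem_Ico] at hj; exact mem_range.2 (by omega)
    · rw [mem_Ico] at hj
      simp only [hh, if_neg hj, mul_one]
      exact pp_sum hq j
  rw [h2, prod_Ico_eq_prod_range]
  rw [show i + k - i = k by omega]
  refine prod_congr rfl fun a ha => ?_
  have ha' := mem_range.1 ha
  refine sum_congr rfl fun r _ => ?_
  have hc : i ≤ i + a ∧ i + a < i + k := ⟨by omega, by omega⟩
  simp only [hh, if_pos hc, show i + a - i = a by omega]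

theorem ZZ_geom (q : ℝ) (j : ℕ) : (1 - q) * ZZ q j = 1 - q ^ (j + 1) := by
  unfold ZZ
  have := geom_sum_mul q (j + 1)
  linarith

theorem pow_bound (hq : 0 ≤ q) (hq1 : q ≤ 1) (T : ℕ) (h1 : (1 - q) * T ≤ 1) (h2 : 3 / 4 ≤ q) :
    1 / 8 ≤ q ^ T := by
  set t := (T + 1) / 2 with ht
  have h3 : T ≤ t * 2 := by omega
  have h4 : 2 * t ≤ T + 1 := by omega
  have h5 : 3 / 8 ≤ q ^ t := by
    have h6 := one_add_mul_le_pow (a := q - 1) (by linarith) t
    rw [show 1 + (q - 1) = q by ring] at h6
    have h7 : (2 : ℝ) * t ≤ T + 1 := by exact_mod_cast h4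
    have h8 : (1 - q) * (2 * t) ≤ (1 - q) * (T + 1) :=
      mul_le_mul_of_nonneg_left h7 (by linarith)
    nlinarith
  calc (1 / 8 : ℝ) ≤ (3 / 8) ^ 2 := by norm_num
    _ ≤ (q ^ t) ^ 2 := by gcongr
    _ = q ^ (t * 2) := by rw [pow_mul]
    _ ≤ q ^ T := pow_le_pow_of_le_one hq hq1 h3

/-- the window of entry `a` -/
def Win {k : ℕ} (π : Equiv.Perm (Fin k)) (L a r : ℕ) : Prop :=
  ∀ h : a < k, (k - 1 - (π ⟨a, h⟩ : ℕ)) * L ≤ r ∧ r + k < (k - 1 - (π ⟨a, h⟩ : ℕ)) * L + L

theorem block_prob {k : ℕ} (hk : 1 ≤ k) (π : Equiv.Perm (Fin k)) (hq : 0 ≤ q) (hq1 : q ≤ 1)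
    (n i : ℕ) (hi : 4 * k * k ≤ i) (hin : i + k ≤ n) :
    (1 / (64 * (k : ℝ) * k)) ^ k * q ^ (inv π) ≤ E q n (gi π i) := by
  have hk0 : (1 : ℝ) ≤ k := by exact_mod_cast hk
  have hqs : q ^ (inv π) ≤ 1 := pow_le_one₀ hq hq1
  have hqs0 : 0 ≤ q ^ (inv π) := pow_nonneg hq _
  rcases le_or_gt (1 / (4 * (k : ℝ) * k)) (1 - q) with hcase | hcase
  · -- the exact code
    have hw := block_win π hq n i hin (fun a r => r = code π a) (fun d hd => good_exact π d hd)
    refine le_trans ?_ hw
    refine le_trans (b := ∏ a ∈ range k, q ^ (code π a) / ZZ q (i + a)) ?_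
      (le_of_eq (prod_congr rfl fun a _ => ?_))
    swap
    · have h2 : code π a ∈ range (i + a + 1) := by
        have := code_le π a
        exact mem_range.2 (by omega)
      rw [sum_eq_single (code π a)]
      · rw [if_pos rfl, mul_one]; rfl
      · intro r _ hr
        rw [if_neg hr, mul_zero]
      · intro h
        exact absurd h2 h
    have h3 : q ^ (inv π) = ∏ a ∈ range k, q ^ (code π a) := by
      rw [prod_pow_eq_pow_sum, inv_eq]
    have h4 : (1 / (64 * (k : ℝ) * k)) ^ k = ∏ _a ∈ range k, (1 / (64 * (k : ℝ) * k)) := by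
      rw [prod_const, card_range]
    rw [h3, h4, ← prod_mul_distrib]
    refine prod_le_prod (fun a _ => by positivity) fun a _ => ?_
    have hZ := ZZ_pos hq (i + a)
    have hg := ZZ_geom q (i + a)
    have hZ2 : (1 - q) * ZZ q (i + a) ≤ 1 := by
      rw [hg]; have := pow_nonneg hq (i + a + 1); linarith
    have h5 : 1 / (64 * (k : ℝ) * k) ≤ 1 / ZZ q (i + a) := by
      have h6 : 1 / (4 * (k : ℝ) * k) * ZZ q (i + a) ≤ 1 :=
        (mul_le_mul_of_nonneg_right hcase hZ.le).trans hZ2
      have h7 : ZZ q (i + a) ≤ 4 * (k : ℝ) * k := by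
        rw [one_div, inv_mul_le_iff₀ (by positivity)] at h6
        linarith
      apply one_div_le_one_div_of_le hZ
      nlinarith
    calc 1 / (64 * (k : ℝ) * k) * q ^ code π a ≤ 1 / ZZ q (i + a) * q ^ code π a :=
          mul_le_mul_of_nonneg_right h5 (pow_nonneg hq _)
      _ = _ := by ring
  · -- windows
    obtain ⟨T, hT0, hTi, hT1, hT2⟩ : ∃ T : ℕ, 4 * k * k ≤ T ∧ T ≤ i ∧ (1 - q) * T ≤ 1 ∧
        ∀ a, a < k → ZZ q (i + a) ≤ 2 * T := by
      have hkk : 1 ≤ k * k := Nat.mul_pos hk hk
      have hlen : ∀ a, a < k → ZZ q (i + a) ≤ 2 * i := by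
        intro a ha
        have h1 : ZZ q (i + a) ≤ ((i + a + 1 : ℕ) : ℝ) := by
          have : ZZ q (i + a) ≤ ∑ _r ∈ range (i + a + 1), (1 : ℝ) :=
            sum_le_sum fun r _ => pow_le_one₀ hq hq1
          simpa using this
        have h2 : k ≤ i := by nlinarith
        have h3 : ((i + a + 1 : ℕ) : ℝ) ≤ ((2 * i : ℕ) : ℝ) := by exact_mod_cast (by omega)
        push_cast at h3 h1
        linarith
      rcases le_or_gt ((1 - q) * i) 1 with h1 | h1
      · exact ⟨i, hi, le_rfl, h1, hlen⟩
      · have hq2 : 0 < 1 - q := by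
          by_contra h
          push Not at h
          have : (1 - q) * i ≤ 0 := mul_nonpos_of_nonpos_of_nonneg h (Nat.cast_nonneg _)
          linarith
        refine ⟨⌊1 / (1 - q)⌋₊, ?_, ?_, ?_, ?_⟩
        · apply Nat.le_floor
          push_cast
          rw [le_div_iff₀ hq2]
          rw [lt_div_iff₀ (by positivity)] at hcase
          nlinarith
        · have h2 : ((⌊1 / (1 - q)⌋₊ : ℕ) : ℝ) ≤ 1 / (1 - q) := Nat.floor_le (by positivity)
          have h3 : 1 / (1 - q) < i := by
            rw [div_lt_iff₀ hq2]; linarith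
          have h4 : ((⌊1 / (1 - q)⌋₊ : ℕ) : ℝ) < i := by linarith
          exact_mod_cast h4.le
        · have h2 : ((⌊1 / (1 - q)⌋₊ : ℕ) : ℝ) ≤ 1 / (1 - q) := Nat.floor_le (by positivity)
          calc (1 - q) * ((⌊1 / (1 - q)⌋₊ : ℕ) : ℝ) ≤ (1 - q) * (1 / (1 - q)) := by gcongr
            _ = 1 := by field_simp
        · intro a _
          have hg := ZZ_geom q (i + a)
          have hZ2 : (1 - q) * ZZ q (i + a) ≤ 1 := by
            rw [hg]; have := pow_nonneg hq (i + a + 1); linarith
          have h2 : ZZ q (i + a) ≤ 1 / (1 - q) := by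
            rw [le_div_iff₀ hq2]; linarith
          have h3 := Nat.lt_floor_add_one (1 / (1 - q))
          have h4 : (1 : ℝ) ≤ ((⌊1 / (1 - q)⌋₊ : ℕ) : ℝ) := by
            have : 1 ≤ ⌊1 / (1 - q)⌋₊ := by
              apply Nat.le_floor
              push_cast
              rw [le_div_iff₀ hq2]
              linarith
            exact_mod_cast this
          linarith
    have hq34 : 3 / 4 ≤ q := by
      have h1 : 1 / (4 * (k : ℝ) * k) ≤ 1 / 4 := by
        apply one_div_le_one_div_of_le (by norm_num)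
        nlinarith
      linarith
    have hqT := pow_bound hq hq1 T hT1 hq34
    set L := T / k with hL
    have hkL : k * L ≤ T := Nat.mul_div_le T k
    have hL4 : 4 * k ≤ L := by
      rw [hL, Nat.le_div_iff_mul_le hk]
      exact hT0
    have hT2kL : T ≤ 2 * k * L := by
      have h1 : T < k * (L + 1) := by
        have := Nat.lt_mul_div_succ T hk
        exact this
      nlinarith
    have hw := block_win π hq n i hin
      (Win π L)
      (fun d hd => good_window π d L fun a => hd a a.2 a.2)
    refine le_trans ?_ hw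
    have hT0' : (0 : ℝ) < T := by
      have : 0 < T := by nlinarith [Nat.mul_pos hk hk]
      exact_mod_cast this
    have hfac : ∀ a ∈ range k, 1 / (64 * (k : ℝ) * k) ≤
        ∑ r ∈ range (i + a + 1), pp q (i + a) r *
          (if Win π L a r then 1 else 0) := by
      intro a ha
      have ha' := mem_range.1 ha
      set u := k - 1 - (π ⟨a, ha'⟩ : ℕ) with hu
      have hu1 : u + 1 ≤ k := by omega
      have hu2 : (u + 1) * L ≤ T := (Nat.mul_le_mul_right L hu1).trans hkL
      have hu3 : (u + 1) * L = u * L + L := by ring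
      have h1 : ∑ r ∈ Ico (u * L) (u * L + (L - k)), (q ^ T / (2 * T)) ≤
          ∑ r ∈ range (i + a + 1), pp q (i + a) r *
            (if Win π L a r then 1 else 0) := by
        calc ∑ r ∈ Ico (u * L) (u * L + (L - k)), (q ^ T / (2 * T))
            ≤ ∑ r ∈ Ico (u * L) (u * L + (L - k)), pp q (i + a) r *
              (if Win π L a r then 1 else 0) := by
              refine sum_le_sum fun r hr => ?_
              rw [mem_Ico] at hr
              have hr2 : r + k < u * L + L := by omega
              have hr3 : Win π L a r := fun _ => ⟨hr.1, hr2⟩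
              rw [if_pos hr3, mul_one]
              unfold pp
              have hZ := ZZ_pos hq (i + a)
              have h3 : q ^ T ≤ q ^ r := pow_le_pow_of_le_one hq hq1 (by omega)
              have h4 := hT2 a ha'
              exact div_le_div₀ (pow_nonneg hq r) h3 hZ h4
          _ ≤ _ := by
              refine sum_le_sum_of_subset_of_nonneg (fun r hr => ?_) fun r _ _ => ?_
              · rw [mem_Ico] at hr
                exact mem_range.2 (by omega)
              · refine mul_nonneg (pp_nonneg hq _ _) ?_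
                split_ifs <;> norm_num
      refine le_trans ?_ h1
      rw [sum_const, Nat.card_Ico, nsmul_eq_mul, show u * L + (L - k) - u * L = L - k by omega]
      have h2 : (L : ℝ) / 2 ≤ ((L - k : ℕ) : ℝ) := by
        rw [Nat.cast_sub (by omega)]
        have : (4 : ℝ) * k ≤ L := by exact_mod_cast hL4
        linarith
      have hLpos : (0 : ℝ) < L := by
        have : 0 < L := by omega
        exact_mod_cast this
      have h3 : (T : ℝ) ≤ 2 * k * L := by exact_mod_cast hT2kL
      calc 1 / (64 * (k : ℝ) * k) ≤ 1 / (64 * (k : ℝ)) := by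
            apply one_div_le_one_div_of_le (by positivity)
            nlinarith
        _ = ((L : ℝ) / 2) * ((1 / 8) / (2 * (2 * k * L))) := by field_simp; norm_num
        _ ≤ ((L - k : ℕ) : ℝ) * (q ^ T / (2 * T)) := by
            gcongr
    calc (1 / (64 * (k : ℝ) * k)) ^ k * q ^ (inv π) ≤ (1 / (64 * (k : ℝ) * k)) ^ k * 1 := by
          gcongr
      _ = ∏ _a ∈ range k, (1 / (64 * (k : ℝ) * k)) := by rw [prod_const, card_range, mul_one]
      _ ≤ _ := prod_le_prod (fun _ _ => by positivity) hfac

end Pool.Agent.R82.CP
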