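import Pool.Agent.R82.CP.Perm

/-! The set of the codes and sums over it. -/

set_option autoImplicit false
open Finset
open scoped Classical

namespace Pool.Agent.R82.CP

/-- the codes of length `n`: `c j ≤ j` for `j < n` and `c j = 0` afterwards -/
noncomputable def codes : ℕ → Finset (ℕ → ℕ)
  | 0 => {0}
  | n + 1 => (codes n ×ˢ range (n + 1)).image (fun x => Function.update x.1 n x.2)

theorem mem_codes (n : ℕ) : ∀ c : ℕ → ℕ,
    c ∈ codes n ↔ (∀ j, j < n → c j ≤ j) ∧ ∀ j, n ≤ j → c j = 0 := by
  induction n with
  | zero =>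
    intro c
    simp only [codes, mem_singleton, Nat.not_lt_zero, IsEmpty.forall_iff, implies_true,
      Nat.zero_le, true_and, forall_const]
    constructor
    · rintro rfl j; rfl
    · intro h; funext j; exact h j
  | succ n ih =>
    intro c
    simp only [codes, mem_image, mem_product, mem_range, Prod.exists]
    constructor
    · rintro ⟨c', r, ⟨hc', hr⟩, rfl⟩
      rw [ih] at hc'
      refine ⟨fun j hj => ?_, fun j hj => ?_⟩
      · by_cases hjn : j = n
        · subst hjn; simp; omega
        · rw [Function.update_of_ne hjn]; exact hc'.1 j (by omega)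
      · rw [Function.update_of_ne (by omega)]; exact hc'.2 j (by omega)
    · rintro ⟨h1, h2⟩
      refine ⟨Function.update c n 0, c n, ⟨?_, by have := h1 n (by omega); omega⟩, ?_⟩
      · rw [ih]
        refine ⟨fun j hj => ?_, fun j hj => ?_⟩
        · rw [Function.update_of_ne (by omega)]; exact h1 j (by omega)
        · by_cases hjn : j = n
          · subst hjn; simp
          · rw [Function.update_of_ne hjn]; exact h2 j (by omega)
      · simp

theorem sum_codes_succ {M : Type*} [AddCommMonoid M] (n : ℕ) (φ : (ℕ → ℕ) → M) :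
    ∑ c ∈ codes (n + 1), φ c =
      ∑ r ∈ range (n + 1), ∑ c ∈ codes n, φ (Function.update c n r) := by
  rw [codes, sum_image, sum_product_right]
  rintro ⟨c, r⟩ h1 ⟨c', r'⟩ h2 h
  simp only [coe_product, Set.mem_prod, mem_coe] at h1 h2 h
  have e1 : r = r' := by
    have := congrFun h n
    simpa using this
  have e2 : c = c' := by
    funext j
    by_cases hj : j = n
    · subst hj
      rw [((mem_codes _ _).1 h1.1).2 _ le_rfl, ((mem_codes _ _).1 h2.1).2 _ le_rfl]
    · have := congrFun h j
      rwa [Function.update_of_ne hj, Function.update_of_ne hj] at this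
  rw [e1, e2]

theorem card_codes (n : ℕ) : (codes n).card = n.factorial := by
  induction n with
  | zero => simp [codes]
  | succ n ih =>
    rw [card_eq_sum_ones, sum_codes_succ]
    simp only [sum_const, smul_eq_mul, mul_one, card_range, ih, Nat.factorial_succ]

theorem code_mem {n : ℕ} (σ : Equiv.Perm (Fin n)) : code σ ∈ codes n := by
  rw [mem_codes]
  refine ⟨fun j _ => code_le σ j, fun j hj => ?_⟩
  rw [code, dif_neg (by omega)]

theorem image_code (n : ℕ) :
    (univ : Finset (Equiv.Perm (Fin n))).image (fun σ => code σ) = codes n := by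
  refine eq_of_subset_of_card_le ?_ ?_
  · intro c hc
    obtain ⟨σ, -, rfl⟩ := mem_image.1 hc
    exact code_mem σ
  · rw [card_image_of_injective _ (code_injective n), card_codes, card_univ, Fintype.card_perm,
      Fintype.card_fin]

theorem sum_code {M : Type*} [AddCommMonoid M] (n : ℕ) (φ : (ℕ → ℕ) → M) :
    ∑ σ : Equiv.Perm (Fin n), φ (code σ) = ∑ c ∈ codes n, φ c := by
  rw [← image_code n, sum_image]
  exact fun x _ y _ h => code_injective n h

/-- the sum of a code -/
def sm (n : ℕ) (c : ℕ → ℕ) : ℕ := ∑ j ∈ range n, c j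

/-- the number of the codes of length `n` and sum `m` -/
noncomputable def FF (n m : ℕ) : ℕ := ((codes n).filter fun c => sm n c = m).card

theorem card_inv (n m : ℕ) :
    (univ.filter fun σ : Equiv.Perm (Fin n) => inv σ = m).card = FF n m := by
  rw [FF, card_filter, card_filter, ← sum_code n (fun c => if sm n c = m then 1 else 0)]
  refine sum_congr rfl fun σ _ => ?_
  rw [inv_eq]; rfl

theorem card_inv_bad (n m : ℕ) (P : (ℕ → ℕ) → Prop) (Q : Equiv.Perm (Fin n) → Prop)
    (h : ∀ σ, Q σ → P (code σ)) :
    (univ.filter fun σ : Equiv.Perm (Fin n) => inv σ = m ∧ Q σ).card ≤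
      ((codes n).filter fun c => sm n c = m ∧ P c).card := by
  rw [card_filter, card_filter, ← sum_code n (fun c => if sm n c = m ∧ P c then 1 else 0)]
  refine sum_le_sum fun σ _ => ?_
  have e : inv σ = sm n (code σ) := inv_eq σ
  by_cases h1 : inv σ = m ∧ Q σ
  · rw [if_pos h1, if_pos ⟨by rw [← e]; exact h1.1, h σ h1.2⟩]
  · rw [if_neg h1]; exact Nat.zero_le _

/-- the sum of the maximal code -/
theorem sm_le (n : ℕ) (c : ℕ → ℕ) (hc : c ∈ codes n) : sm n c ≤ n.choose 2 := by
  rw [Nat.choose_two_right, ← sum_range_id]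
  exact sum_le_sum fun j hj => ((mem_codes _ _).1 hc).1 j (mem_range.1 hj)

end Pool.Agent.R82.CP
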