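import Pool.Agent.R82.CP.Codes

/-! Independent truncated geometric variables: the expectation operator. -/

set_option autoImplicit false
open Finset
open scoped Classical

namespace Pool.Agent.R82.CP

/-- normalisation of coordinate `j` -/
noncomputable def ZZ (q : ℝ) (j : ℕ) : ℝ := ∑ r ∈ range (j + 1), q ^ r

/-- law of coordinate `j` -/
noncomputable def pp (q : ℝ) (j r : ℕ) : ℝ := q ^ r / ZZ q j

/-- expectation of a function of the code -/
noncomputable def E (q : ℝ) (n : ℕ) (φ : (ℕ → ℕ) → ℝ) : ℝ :=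
  ∑ c ∈ codes n, (∏ j ∈ range n, pp q j (c j)) * φ c

variable {q : ℝ}

theorem ZZ_one_le (hq : 0 ≤ q) (j : ℕ) : 1 ≤ ZZ q j := by
  have : q ^ 0 ≤ ∑ r ∈ range (j + 1), q ^ r :=
    single_le_sum (f := fun r => q ^ r) (fun r _ => pow_nonneg hq r) (mem_range.2 (Nat.succ_pos j))
  simpa [ZZ] using this

theorem ZZ_pos (hq : 0 ≤ q) (j : ℕ) : 0 < ZZ q j := lt_of_lt_of_le one_pos (ZZ_one_le hq j)

theorem pp_nonneg (hq : 0 ≤ q) (j r : ℕ) : 0 ≤ pp q j r :=
  div_nonneg (pow_nonneg hq r) (ZZ_pos hq j).le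

theorem pp_sum (hq : 0 ≤ q) (j : ℕ) : ∑ r ∈ range (j + 1), pp q j r = 1 := by
  simp only [pp]
  rw [← sum_div]
  exact div_self (ZZ_pos hq j).ne'

theorem E_succ (n : ℕ) (φ : (ℕ → ℕ) → ℝ) :
    E q (n + 1) φ = ∑ r ∈ range (n + 1), pp q n r * E q n (fun c => φ (Function.update c n r)) := by
  unfold E
  rw [sum_codes_succ]
  refine sum_congr rfl fun r _ => ?_
  rw [mul_sum]
  refine sum_congr rfl fun c _ => ?_
  rw [prod_range_succ]
  have : ∏ j ∈ range n, pp q j (Function.update c n r j) = ∏ j ∈ range n, pp q j (c j) := by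
    refine prod_congr rfl fun j hj => ?_
    rw [Function.update_of_ne (by have := mem_range.1 hj; omega)]
  rw [this]
  simp only [Function.update_self]
  ring

theorem E_zero (φ : (ℕ → ℕ) → ℝ) : E q 0 φ = φ 0 := by
  simp [E, codes]

theorem E_add (n : ℕ) (φ ψ : (ℕ → ℕ) → ℝ) : E q n (fun c => φ c + ψ c) = E q n φ + E q n ψ := by
  simp only [E, mul_add, sum_add_distrib]

theorem E_sub (n : ℕ) (φ ψ : (ℕ → ℕ) → ℝ) : E q n (fun c => φ c - ψ c) = E q n φ - E q n ψ := by
  simp only [E, mul_sub, sum_sub_distrib]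

theorem E_mul_left (n : ℕ) (a : ℝ) (φ : (ℕ → ℕ) → ℝ) :
    E q n (fun c => a * φ c) = a * E q n φ := by
  simp only [E, mul_sum]
  exact sum_congr rfl fun c _ => by ring

theorem E_sum {ι : Type*} (n : ℕ) (s : Finset ι) (φ : ι → (ℕ → ℕ) → ℝ) :
    E q n (fun c => ∑ i ∈ s, φ i c) = ∑ i ∈ s, E q n (φ i) := by
  simp only [E, mul_sum]
  rw [sum_comm]

theorem E_congr (n : ℕ) (φ ψ : (ℕ → ℕ) → ℝ) (h : ∀ c ∈ codes n, φ c = ψ c) :
    E q n φ = E q n ψ := by
  unfold E
  exact sum_congr rfl fun c hc => by rw [h c hc]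

theorem E_mono (hq : 0 ≤ q) (n : ℕ) (φ ψ : (ℕ → ℕ) → ℝ) (h : ∀ c ∈ codes n, φ c ≤ ψ c) :
    E q n φ ≤ E q n ψ := by
  unfold E
  refine sum_le_sum fun c hc => mul_le_mul_of_nonneg_left (h c hc) ?_
  exact prod_nonneg fun j _ => pp_nonneg hq _ _

theorem E_nonneg (hq : 0 ≤ q) (n : ℕ) (φ : (ℕ → ℕ) → ℝ) (h : ∀ c ∈ codes n, 0 ≤ φ c) :
    0 ≤ E q n φ := by
  unfold E
  refine sum_nonneg fun c hc => mul_nonneg ?_ (h c hc)
  exact prod_nonneg fun j _ => pp_nonneg hq _ _

theorem E_const (hq : 0 ≤ q) (n : ℕ) (a : ℝ) : E q n (fun _ => a) = a := by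
  induction n with
  | zero => rw [E_zero]
  | succ n ih =>
    rw [E_succ]
    simp only [ih]
    rw [← sum_mul, pp_sum hq, one_mul]

/-- product functions -/
theorem E_prod (n : ℕ) (h : ℕ → ℕ → ℝ) :
    E q n (fun c => ∏ j ∈ range n, h j (c j)) =
      ∏ j ∈ range n, ∑ r ∈ range (j + 1), pp q j r * h j r := by
  induction n with
  | zero => simp [E_zero]
  | succ n ih =>
    rw [E_succ, prod_range_succ, ← ih, mul_sum]
    refine sum_congr rfl fun r _ => ?_
    have : (fun c : ℕ → ℕ => ∏ j ∈ range (n + 1), h j (Function.update c n r j)) =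
        fun c => h n r * ∏ j ∈ range n, h j (c j) := by
      funext c
      rw [prod_range_succ, Function.update_self, mul_comm]
      congr 1
      refine prod_congr rfl fun j hj => ?_
      rw [Function.update_of_ne (by have := mem_range.1 hj; omega)]
    rw [this, E_mul_left]
    ring

/-- functions of disjoint sets of coordinates are independent -/
theorem E_indep (hq : 0 ≤ q) (A : Set ℕ) (n : ℕ) : ∀ (φ ψ : (ℕ → ℕ) → ℝ), DependsOn φ A →
    DependsOn ψ Aᶜ → E q n (fun c => φ c * ψ c) = E q n φ * E q n ψ := by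
  induction n with
  | zero => intro φ ψ _ _; simp only [E_zero]
  | succ n ih =>
    intro φ ψ hφ hψ
    have hupd : ∀ (χ : (ℕ → ℕ) → ℝ) (B : Set ℕ) (r : ℕ), DependsOn χ B →
        DependsOn (fun c => χ (Function.update c n r)) B := by
      intro χ B r hχ x y hxy
      refine hχ fun j hj => ?_
      by_cases hjn : j = n
      · subst hjn; simp
      · rw [Function.update_of_ne hjn, Function.update_of_ne hjn]; exact hxy j hj
    have hno : ∀ (χ : (ℕ → ℕ) → ℝ) (B : Set ℕ) (r : ℕ), DependsOn χ B → n ∉ B →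
        (fun c => χ (Function.update c n r)) = χ := by
      intro χ B r hχ hn
      funext c
      refine hχ fun j hj => ?_
      rw [Function.update_of_ne (fun h => hn (by rw [← h]; exact hj))]
    rw [E_succ, E_succ, E_succ]
    have h1 : ∀ r, E q n (fun c => φ (Function.update c n r) * ψ (Function.update c n r)) =
        E q n (fun c => φ (Function.update c n r)) * E q n (fun c => ψ (Function.update c n r)) :=
      fun r => ih _ _ (hupd φ A r hφ) (hupd ψ Aᶜ r hψ)
    simp only [h1]
    by_cases hn : n ∈ A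
    · have hn' : n ∉ Aᶜ := fun h => h hn
      have h2 : ∀ r, E q n (fun c => ψ (Function.update c n r)) = E q n ψ := fun r => by
        rw [hno ψ Aᶜ r hψ hn']
      simp only [h2]
      rw [← sum_mul, pp_sum hq, one_mul, sum_mul]
      exact sum_congr rfl fun r _ => by ring
    · have h2 : ∀ r, E q n (fun c => φ (Function.update c n r)) = E q n φ := fun r => by
        rw [hno φ A r hφ hn]
      simp only [h2]
      rw [← sum_mul, pp_sum hq, one_mul, mul_sum]
      exact sum_congr rfl fun r _ => by ring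

/-- the partial sum over the coordinates in `U` -/
noncomputable def SU (U : Set ℕ) (n : ℕ) (c : ℕ → ℕ) : ℕ := ∑ j ∈ range n, if j ∈ U then c j else 0

theorem SU_update (U : Set ℕ) (n : ℕ) (c : ℕ → ℕ) (r : ℕ) :
    SU U (n + 1) (Function.update c n r) = SU U n c + (if n ∈ U then r else 0) := by
  unfold SU
  rw [sum_range_succ, Function.update_self]
  congr 1
  refine sum_congr rfl fun j hj => ?_
  rw [Function.update_of_ne (by have := mem_range.1 hj; omega)]

theorem SU_univ (n : ℕ) (c : ℕ → ℕ) : SU Set.univ n c = sm n c := by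
  simp [SU, sm]

theorem SU_compl (U : Set ℕ) (n : ℕ) (c : ℕ → ℕ) : SU U n c + SU Uᶜ n c = sm n c := by
  unfold SU sm
  rw [← sum_add_distrib]
  refine sum_congr rfl fun j _ => ?_
  by_cases h : j ∈ U <;> simp [h]

theorem SU_dep (U : Set ℕ) (n : ℕ) : DependsOn (fun c => SU U n c) U := by
  intro x y h
  unfold SU
  refine sum_congr rfl fun j _ => ?_
  by_cases hj : j ∈ U
  · simp [hj, h j hj]
  · simp [hj]

/-- the law of the partial sum -/
noncomputable def ff (q : ℝ) (U : Set ℕ) (n : ℕ) (y : ℤ) : ℝ :=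
  E q n (fun c => if ((SU U n c : ℕ) : ℤ) = y then 1 else 0)

theorem ff_zero (U : Set ℕ) (y : ℤ) : ff q U 0 y = if y = 0 then 1 else 0 := by
  unfold ff
  rw [E_zero]
  simp [SU, eq_comm]

theorem ff_succ (hq : 0 ≤ q) (U : Set ℕ) (n : ℕ) (y : ℤ) :
    ff q U (n + 1) y = if n ∈ U then ∑ r ∈ range (n + 1), pp q n r * ff q U n (y - r)
      else ff q U n y := by
  unfold ff
  rw [E_succ]
  simp only [SU_update]
  split_ifs with h
  · refine sum_congr rfl fun r _ => ?_
    congr 1
    congr 1
    funext c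
    congr 1
    push_cast
    exact propext ⟨fun h => by linarith, fun h => by linarith⟩
  · simp only [add_zero]
    rw [← sum_mul, pp_sum hq, one_mul]

theorem ff_nonneg (hq : 0 ≤ q) (U : Set ℕ) (n : ℕ) (y : ℤ) : 0 ≤ ff q U n y := by
  refine E_nonneg hq n _ fun c _ => ?_
  split_ifs <;> norm_num

/-- log-concavity (without internal zeros) -/
def LC (f : ℤ → ℝ) : Prop := ∀ x y : ℤ, x ≤ y → f x * f (y + 1) ≤ f (x + 1) * f y

theorem LC.gen {f : ℤ → ℝ} (h : LC f) (a b : ℤ) (k : ℕ) (hk : a + k ≤ b - k) :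
    f a * f b ≤ f (a + k) * f (b - k) := by
  induction k with
  | zero => simp
  | succ k ih =>
    have h1 := ih (by push_cast at hk; linarith)
    have h2 := h (a + k) (b - k - 1) (by push_cast at hk; linarith)
    rw [show b - (k : ℤ) - 1 + 1 = b - k by ring] at h2
    refine h1.trans (h2.trans (le_of_eq ?_))
    push_cast
    rw [show a + (k : ℤ) + 1 = a + (k + 1) by ring, show b - (k : ℤ) - 1 = b - (k + 1) by ring]

theorem LC.pair {f : ℤ → ℝ} (h : LC f) (a b a' b' : ℤ) (h1 : a ≤ a') (h2 : a ≤ b')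
    (h3 : a' + b' = a + b) : f a * f b ≤ f a' * f b' := by
  rcases le_total a' b' with hab | hab
  · obtain ⟨k, hk⟩ := Int.eq_ofNat_of_zero_le (sub_nonneg.2 h1)
    have e1 : a' = a + k := by linarith
    have e2 : b' = b - k := by linarith
    have := h.gen a b k (by linarith)
    rwa [e1, e2]
  · obtain ⟨k, hk⟩ := Int.eq_ofNat_of_zero_le (sub_nonneg.2 h2)
    have e1 : b' = a + k := by linarith
    have e2 : a' = b - k := by linarith
    have := h.gen a b k (by linarith)
    rw [e1, e2, mul_comm (f (b - k))]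
    exact this

theorem LC_step {f : ℤ → ℝ} (h : LC f) (q Z : ℝ) (hq : 0 ≤ q) (hZ : 0 < Z) (n : ℕ) :
    LC (fun y => ∑ r ∈ range (n + 1), q ^ r / Z * f (y - r)) := by
  intro x y hxy
  set g : ℤ → ℝ := fun y => ∑ r ∈ range (n + 1), q ^ r * f (y - r) with hg
  have e0 : ∀ y : ℤ, ∑ r ∈ range (n + 1), q ^ r / Z * f (y - r) = g y / Z := by
    intro y
    rw [hg]
    simp only
    rw [sum_div]
    exact sum_congr rfl fun r _ => by ring
  simp only [e0]
  have hrec : ∀ y : ℤ, g (y + 1) = f (y + 1) + q * g y - q ^ (n + 1) * f (y - n) := by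
    intro y
    have h1 : ∑ r ∈ range (n + 2), q ^ r * f (y + 1 - r) = g (y + 1) + q ^ (n + 1) * f (y - n) := by
      rw [sum_range_succ]
      congr 3
      push_cast; ring
    have h2 : ∑ r ∈ range (n + 2), q ^ r * f (y + 1 - r) = f (y + 1) + q * g y := by
      rw [sum_range_succ']
      simp only [pow_zero, Nat.cast_zero, sub_zero, one_mul]
      rw [add_comm, hg]
      simp only
      rw [mul_sum]
      congr 1
      refine sum_congr rfl fun r _ => ?_
      push_cast
      rw [show y + 1 - ((r : ℤ) + 1) = y - r by ring]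
      ring
    linarith
  have h1 : 0 ≤ f (x + 1) * g y - f (y + 1) * g x := by
    rw [hg]
    simp only
    rw [mul_sum, mul_sum, ← sum_sub_distrib]
    refine sum_nonneg fun r _ => ?_
    have := h.pair (x - r) (y + 1) (x + 1) (y - r) (by linarith [Int.natCast_nonneg r])
      (by linarith) (by ring)
    have h3 := mul_le_mul_of_nonneg_left this (pow_nonneg hq r)
    linarith
  have h2 : 0 ≤ f (y - n) * g x - f (x - n) * g y := by
    rw [hg]
    simp only
    rw [mul_sum, mul_sum, ← sum_sub_distrib]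
    refine sum_nonneg fun r hr => ?_
    have hr' : (r : ℤ) ≤ n := by exact_mod_cast Nat.lt_succ_iff.1 (mem_range.1 hr)
    have := h.pair (x - n) (y - r) (y - n) (x - r) (by linarith) (by linarith) (by ring)
    have h3 := mul_le_mul_of_nonneg_left this (pow_nonneg hq r)
    linarith
  have h3 : g x * g (y + 1) ≤ g (x + 1) * g y := by
    rw [hrec, hrec]
    have := mul_nonneg (pow_nonneg hq (n + 1)) h2
    nlinarith
  have h4 : g x / Z * (g (y + 1) / Z) = g x * g (y + 1) / (Z * Z) := by ring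
  have h5 : g (x + 1) / Z * (g y / Z) = g (x + 1) * g y / (Z * Z) := by ring
  rw [h4, h5]
  exact div_le_div_of_nonneg_right h3 (by positivity)

theorem ff_LC (hq : 0 ≤ q) (U : Set ℕ) (n : ℕ) : LC (ff q U n) := by
  induction n with
  | zero =>
    intro x y hxy
    rw [ff_zero, ff_zero, ff_zero, ff_zero]
    split_ifs <;> first | (exfalso; omega) | norm_num
  | succ n ih =>
    by_cases h : n ∈ U
    · have : ff q U (n + 1) = fun y => ∑ r ∈ range (n + 1), q ^ r / ZZ q n * ff q U n (y - r) := by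
        funext y
        rw [ff_succ hq, if_pos h]
        rfl
      rw [this]
      exact LC_step ih q _ hq (ZZ_pos hq n) n
    · have : ff q U (n + 1) = ff q U n := by
        funext y
        rw [ff_succ hq, if_neg h]
      rw [this]
      exact ih

end Pool.Agent.R82.CP
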