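import Pool.Agent.R82.CP.Block

/-! The main finite estimate. -/

set_option autoImplicit false
open Finset
open scoped Classical

namespace Pool.Agent.R82.CP

variable {q : ℝ}

/-- the coordinates of the first `L` test blocks -/
def AA (k L : ℕ) : Set ℕ :=
  {j | ∃ b, b < L ∧ 4 * k * k + 2 * k * b ≤ j ∧ j < 4 * k * k + 2 * k * b + k}

theorem AA_shift (k L j : ℕ) (hj : j ∈ AA k L) : j + k ∉ AA k L ∧ j + k < 4 * k * k + 2 * k * L := by
  obtain ⟨b, hb, h1, h2⟩ := hj
  have h3 : 2 * k * (b + 1) ≤ 2 * k * L := Nat.mul_le_mul_left _ hb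
  have h4 : 2 * k * (b + 1) = 2 * k * b + 2 * k := by ring
  refine ⟨?_, by omega⟩
  rintro ⟨b', hb', h5, h6⟩
  rcases Nat.lt_or_ge b b' with h | h
  · have h7 : 2 * k * (b + 1) ≤ 2 * k * b' := Nat.mul_le_mul_left _ h
    omega
  · have h7 : 2 * k * b' ≤ 2 * k * b := Nat.mul_le_mul_left _ h
    omega

theorem AA_var (hq : 0 ≤ q) (hq1 : q ≤ 1) (k L n : ℕ) (hn : 4 * k * k + 2 * k * L ≤ n) :
    vU q (AA k L) n ≤ (1 + k) * vU q (AA k L)ᶜ n := by
  unfold vU
  have h1 : (∑ j ∈ range n, if j ∈ AA k L then vj q j else 0) ≤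
      ∑ j ∈ range n with j ∈ AA k L, (1 + (k : ℝ)) * vj q (j + k) := by
    rw [← sum_filter]
    exact sum_le_sum fun j _ => vj_comp hq hq1 j k
  refine h1.trans ?_
  rw [← mul_sum]
  refine mul_le_mul_of_nonneg_left ?_ (by positivity)
  have h2 : ∑ j ∈ range n with j ∈ AA k L, vj q (j + k) =
      ∑ j ∈ ((range n).filter (fun j => j ∈ AA k L)).image (fun j => j + k), vj q j := by
    rw [sum_image]
    intro x _ y _ h
    simpa using h
  rw [h2]
  refine le_trans (b := ∑ j ∈ range n with j ∉ AA k L, vj q j) ?_ (le_of_eq ?_)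
  swap
  · rw [sum_filter]
    refine sum_congr rfl fun j _ => ?_
    by_cases h : j ∈ AA k L <;> simp [h]
  refine sum_le_sum_of_subset_of_nonneg (fun j hj => ?_) fun j _ _ => vj_nonneg hq j
  obtain ⟨i, hi, rfl⟩ := mem_image.1 hj
  have h3 := AA_shift k L i (mem_filter.1 hi).2
  rw [mem_filter, mem_range]
  exact ⟨by omega, h3.1⟩

/-- no good test block -/
noncomputable def bad {k : ℕ} (π : Equiv.Perm (Fin k)) (L : ℕ) (c : ℕ → ℕ) : ℝ :=
  ∏ b ∈ range L, (1 - gi π (4 * k * k + 2 * k * b) c)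

theorem gi_bounds {k : ℕ} (π : Equiv.Perm (Fin k)) (i : ℕ) (c : ℕ → ℕ) :
    0 ≤ 1 - gi π i c ∧ 1 - gi π i c ≤ 1 := by
  unfold gi
  split_ifs <;> norm_num

theorem bad_nonneg {k : ℕ} (π : Equiv.Perm (Fin k)) (L : ℕ) (c : ℕ → ℕ) : 0 ≤ bad π L c :=
  prod_nonneg fun b _ => (gi_bounds π _ c).1

theorem Good_congr {k : ℕ} (π : Equiv.Perm (Fin k)) (d e : ℕ → ℕ) (h : ∀ a, a < k → d a = e a) :
    Good π d ↔ Good π e := by
  unfold Good
  refine forall_congr' fun a => forall_congr' fun t => forall_congr' fun ht => ?_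
  rw [rr_congr d e a t (fun x hx => h x (by omega)), h (a + 1 + t) ht]

theorem gi_dep {k : ℕ} (π : Equiv.Perm (Fin k)) (i : ℕ) :
    DependsOn (gi π i) {j | i ≤ j ∧ j < i + k} := by
  intro x y h
  unfold gi
  have h1 : Good π (fun a => x (i + a)) ↔ Good π (fun a => y (i + a)) :=
    Good_congr π _ _ fun a ha => h (i + a) ⟨by omega, by omega⟩
  by_cases h2 : Good π (fun a => x (i + a))
  · rw [if_pos h2, if_pos (h1.1 h2)]
  · rw [if_neg h2, if_neg (fun h3 => h2 (h1.2 h3))]

theorem bad_dep {k : ℕ} (π : Equiv.Perm (Fin k)) (L : ℕ) : DependsOn (bad π L) (AA k L) := by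
  intro x y h
  unfold bad
  refine prod_congr rfl fun b hb => ?_
  rw [gi_dep π _ (fun j hj => h j ⟨b, mem_range.1 hb, hj.1, hj.2⟩)]

theorem E_bad {k : ℕ} (hk : 1 ≤ k) (π : Equiv.Perm (Fin k)) (hq : 0 ≤ q) (hq1 : q ≤ 1)
    (n : ℕ) (p : ℝ) (hp : p = (1 / (64 * (k : ℝ) * k)) ^ k * q ^ (inv π)) (L : ℕ) :
    4 * k * k + 2 * k * L ≤ n → E q n (bad π L) ≤ Real.exp (-(p * L)) := by
  induction L with
  | zero =>
    intro _
    have : bad π 0 = fun _ => (1 : ℝ) := by funext c; simp [bad]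
    rw [this, E_const hq]
    simp
  | succ L ih =>
    intro hn
    have e0 : 2 * k * (L + 1) = 2 * k * L + 2 * k := by ring
    have h1 : (bad π (L + 1)) = fun c => bad π L c * (1 - gi π (4 * k * k + 2 * k * L) c) := by
      funext c
      unfold bad
      rw [prod_range_succ]
    rw [h1, E_indep hq {j | j < 4 * k * k + 2 * k * L}]
    · have h2 : E q n (fun c => 1 - gi π (4 * k * k + 2 * k * L) c) ≤ Real.exp (-p) := by
        have h3 := E_sub (q := q) n (fun _ => 1) (gi π (4 * k * k + 2 * k * L))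
        rw [h3, E_const hq]
        have h4 := block_prob hk π hq hq1 n (4 * k * k + 2 * k * L) (by omega) (by omega)
        rw [← hp] at h4
        have := Real.add_one_le_exp (-p)
        linarith
      have h3 := ih (by omega)
      have h4 : 0 ≤ E q n (bad π L) := E_nonneg hq n _ fun c _ => bad_nonneg π L c
      have h5 : 0 ≤ E q n (fun c => 1 - gi π (4 * k * k + 2 * k * L) c) :=
        E_nonneg hq n _ fun c _ => (gi_bounds π _ c).1
      calc E q n (bad π L) * E q n (fun c => 1 - gi π (4 * k * k + 2 * k * L) c)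
          ≤ Real.exp (-(p * L)) * Real.exp (-p) := mul_le_mul h3 h2 h5 (Real.exp_pos _).le
        _ = Real.exp (-(p * ((L + 1 : ℕ) : ℝ))) := by
            rw [← Real.exp_add]; push_cast; ring_nf
    · intro x y h
      refine bad_dep π L fun j hj => h j ?_
      obtain ⟨b, hb, h3, h4⟩ := hj
      have h5 : 2 * k * (b + 1) ≤ 2 * k * L := Nat.mul_le_mul_left _ hb
      have h6 : 2 * k * (b + 1) = 2 * k * b + 2 * k := by ring
      change j < 4 * k * k + 2 * k * L
      omega
    · intro x y h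
      have := gi_dep π (4 * k * k + 2 * k * L) (x := x) (y := y) fun j hj => h j (by
        change ¬ (j < 4 * k * k + 2 * k * L)
        have := hj.1
        omega)
      simp only [this]

/-- splitting the total sum -/
theorem E_split (hq : 0 ≤ q) (A : Set ℕ) (n m : ℕ) (φ : (ℕ → ℕ) → ℝ) (hφ : DependsOn φ A)
    (hφ0 : ∀ c, 0 ≤ φ c) (M : ℝ) (hM : ∀ y, ff q Aᶜ n y ≤ M) :
    E q n (fun c => φ c * (if sm n c = m then 1 else 0)) ≤ M * E q n φ := by
  have hM0 : 0 ≤ M := (ff_nonneg hq Aᶜ n 0).trans (hM 0)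
  have h1 : E q n (fun c => φ c * (if sm n c = m then 1 else 0)) =
      ∑ a ∈ range (m + 1), E q n (fun c => (φ c * (if SU A n c = a then 1 else 0)) *
        (if SU Aᶜ n c = m - a then 1 else 0)) := by
    rw [← E_sum]
    refine E_congr n _ _ fun c _ => ?_
    have hc := SU_compl A n c
    by_cases h : sm n c = m
    · rw [if_pos h, sum_eq_single (SU A n c)]
      · rw [if_pos rfl, if_pos (by omega)]; ring
      · intro a _ ha
        rw [if_neg (Ne.symm ha), mul_zero, zero_mul]
      · intro h2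
        exact absurd (mem_range.2 (by omega)) h2
    · rw [if_neg h, mul_zero]
      symm
      refine sum_eq_zero fun a ha => ?_
      have := mem_range.1 ha
      by_cases h2 : SU A n c = a
      · rw [if_neg (show ¬ (SU Aᶜ n c = m - a) by omega), mul_zero]
      · rw [if_neg h2, mul_zero, zero_mul]
  have h2 : ∀ a ∈ range (m + 1), E q n (fun c => (φ c * (if SU A n c = a then 1 else 0)) *
        (if SU Aᶜ n c = m - a then 1 else 0)) ≤
        M * E q n (fun c => φ c * (if SU A n c = a then 1 else 0)) := by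
    intro a _
    rw [E_indep hq A n (fun c => φ c * (if SU A n c = a then 1 else 0))
      (fun c => if SU Aᶜ n c = m - a then 1 else 0)]
    · have h3 : E q n (fun c => if SU Aᶜ n c = m - a then (1 : ℝ) else 0) =
          ff q Aᶜ n ((m - a : ℕ) : ℤ) := by
        unfold ff
        refine E_congr n _ _ fun c _ => ?_
        by_cases h4 : SU Aᶜ n c = m - a
        · rw [if_pos h4, if_pos (by exact_mod_cast h4)]
        · rw [if_neg h4, if_neg (by exact_mod_cast h4)]
      rw [h3, mul_comm]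
      refine mul_le_mul_of_nonneg_right (hM _) (E_nonneg hq n _ fun c _ => ?_)
      refine mul_nonneg (hφ0 c) ?_
      split_ifs <;> norm_num
    · intro x y h
      simp only
      rw [hφ h, show SU A n x = SU A n y from SU_dep A n h]
    · intro x y h
      simp only
      rw [show SU Aᶜ n x = SU Aᶜ n y from SU_dep Aᶜ n h]
  rw [h1]
  refine (sum_le_sum h2).trans ?_
  rw [← mul_sum, ← E_sum]
  refine mul_le_mul_of_nonneg_left (E_mono hq n _ _ fun c _ => ?_) hM0
  rw [← mul_sum]
  refine mul_le_of_le_one_right (hφ0 c) ?_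
  rw [sum_ite_eq]
  split_ifs <;> norm_num

/-- The main finite estimate. -/
theorem main_est {k : ℕ} (hk : 1 ≤ k) (π : Equiv.Perm (Fin k)) (n m L : ℕ)
    (hm : 2 * m ≤ n.choose 2) (hn : 4 * k * k + 2 * k * L ≤ n) :
    ((univ.filter fun σ : Equiv.Perm (Fin n) => inv σ = m ∧ ¬ HasConsec π σ).card : ℝ) ≤
      120 * (1 + k) * Real.exp (-((1 / (64 * (k : ℝ) * k)) ^ k *
        ((m : ℝ) / (m + n)) ^ (inv π) * L)) * FF n m := by
  obtain ⟨q, hq, hq1, hqm, hqpos, hmode⟩ := exists_tilt n m hm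
  set p : ℝ := (1 / (64 * (k : ℝ) * k)) ^ k * q ^ (inv π) with hp
  have hW := WW_pos hq n
  have hk0 : (1 : ℝ) ≤ k := by exact_mod_cast hk
  have hn0 : (0 : ℝ) < n := by
    have : 0 < n := by nlinarith [Nat.mul_pos hk hk]
    exact_mod_cast this
  -- counting
  have h1 : ((univ.filter fun σ : Equiv.Perm (Fin n) => inv σ = m ∧ ¬ HasConsec π σ).card : ℝ) ≤
      ∑ c ∈ codes n with sm n c = m, bad π L c := by
    have h2 := card_inv_bad n m (fun c => ∀ b, b < L → ¬ Good π
      (fun x => c (4 * k * k + 2 * k * b + x))) (fun σ => ¬ HasConsec π σ) (by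
        intro σ hσ b hb hg
        refine hσ (good_consec π σ (4 * k * k + 2 * k * b) ?_ hg)
        have h5 : 2 * k * (b + 1) ≤ 2 * k * L := Nat.mul_le_mul_left _ hb
        have h6 : 2 * k * (b + 1) = 2 * k * b + 2 * k := by ring
        omega)
    have h2' : ((univ.filter fun σ : Equiv.Perm (Fin n) =>
        inv σ = m ∧ ¬ HasConsec π σ).card) ≤ ((codes n).filter fun c => sm n c = m ∧
          ∀ b, b < L → ¬ Good π (fun x => c (4 * k * k + 2 * k * b + x))).card := by
      convert h2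
    refine le_trans ((Nat.cast_le (α := ℝ)).2 h2') ?_
    rw [← filter_filter, card_filter]
    push_cast
    refine sum_le_sum fun c _ => ?_
    by_cases h3 : ∀ b, b < L → ¬ Good π (fun x => c (4 * k * k + 2 * k * b + x))
    · rw [if_pos h3]
      unfold bad
      rw [prod_eq_one]
      intro b hb
      unfold gi
      rw [if_neg (h3 b (mem_range.1 hb)), sub_zero]
    · rw [if_neg h3]
      exact bad_nonneg π L c
  have h2 := E_sm (q := q) n m (bad π L)
  have h3 := ff_eq (q := q) n m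
  have hmc := fun y => mode_comp hq (AA k L) n (1 + k) (by linarith)
    (AA_var hq hq1 k L n hn) m hmode y
  have h4 := E_split hq (AA k L) n m (bad π L) (bad_dep π L) (bad_nonneg π L) _ hmc
  have h5 := E_bad hk π hq hq1 n p hp L hn
  rw [h2, h3] at h4
  have hpos : 0 < q ^ m / WW q n := by positivity
  have h6 : q ^ m / WW q n * ∑ c ∈ codes n with sm n c = m, bad π L c ≤
      q ^ m / WW q n * (120 * (1 + k) * Real.exp (-(p * L)) * FF n m) := by
    refine h4.trans ?_
    calc 120 * (1 + (k : ℝ)) * (q ^ m / WW q n * FF n m) * E q n (bad π L)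
        ≤ 120 * (1 + (k : ℝ)) * (q ^ m / WW q n * FF n m) * Real.exp (-(p * L)) := by
          gcongr
      _ = _ := by ring
  have h7 := le_of_mul_le_mul_left h6 hpos
  refine (h1.trans h7).trans ?_
  have hqq : (m : ℝ) / (m + n) ≤ q := by
    rw [div_le_iff₀ (by positivity)]; exact hqm
  have h8 : (1 / (64 * (k : ℝ) * k)) ^ k * ((m : ℝ) / (m + n)) ^ (inv π) * L ≤ p * L := by
    rw [hp]
    gcongr
  have h9 : Real.exp (-(p * L)) ≤ Real.exp (-((1 / (64 * (k : ℝ) * k)) ^ k *
        ((m : ℝ) / (m + n)) ^ (inv π) * L)) := Real.exp_le_exp.2 (by linarith)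
  gcongr

end Pool.Agent.R82.CP
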