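import Pool.Agent.R82.CP.Final

/-! Reversal and the limit. -/

set_option autoImplicit false
open Finset Filter Topology Asymptotics
open scoped Classical

namespace Pool.Agent.R82.CP

/-- reversal of a permutation (as a word) -/
def revP {n : ℕ} (σ : Equiv.Perm (Fin n)) : Equiv.Perm (Fin n) := Fin.revPerm.trans σ

theorem revP_apply {n : ℕ} (σ : Equiv.Perm (Fin n)) (x : Fin n) : revP σ x = σ x.rev := rfl

theorem revP_inj {n : ℕ} : Function.Injective (revP (n := n)) := by
  intro σ τ h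
  ext x
  have := congrArg (fun ρ : Equiv.Perm (Fin n) => ρ x.rev) h
  simp only [revP_apply, Fin.rev_rev] at this
  rw [this]

theorem card_pairs (n : ℕ) :
    (univ.filter fun p : Fin n × Fin n => p.1 < p.2).card = n.choose 2 := by
  rw [card_filter, Fintype.sum_prod_type_right, ← sm_full n, ← Fin.sum_univ_eq_sum_range]
  refine sum_congr rfl fun j _ => ?_
  rw [← card_filter]
  have : (univ.filter fun i : Fin n => i < j) = Finset.Iio j := by
    ext i; simp
  rw [this, Fin.card_Iio]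

theorem inv_rev {n : ℕ} (σ : Equiv.Perm (Fin n)) : inv (revP σ) + inv σ = n.choose 2 := by
  have h1 : inv (revP σ) =
      (univ.filter fun p : Fin n × Fin n => p.1 < p.2 ∧ σ p.1 < σ p.2).card := by
    unfold inv
    refine card_bij' (fun p _ => (p.2.rev, p.1.rev)) (fun p _ => (p.2.rev, p.1.rev)) ?_ ?_ ?_ ?_
    · intro p hp
      rw [Finset.mem_filter] at hp ⊢
      exact ⟨mem_univ _, Fin.rev_lt_rev.2 hp.2.1, hp.2.2⟩
    · intro p hp
      rw [Finset.mem_filter] at hp ⊢
      refine ⟨mem_univ _, Fin.rev_lt_rev.2 hp.2.1, ?_⟩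
      simp only [revP_apply, Fin.rev_rev]
      exact hp.2.2
    · intro p _; simp
    · intro p _; simp
  rw [h1, ← card_pairs n]
  unfold inv
  rw [← card_union_of_disjoint]
  · congr 1
    ext p
    simp only [mem_union, Finset.mem_filter, mem_univ, true_and]
    constructor
    · rintro (h | h) <;> exact h.1
    · intro h
      rcases lt_or_gt_of_ne (fun h2 : σ p.1 = σ p.2 => (ne_of_lt h) (σ.injective h2)) with h3 | h3
      · exact Or.inl ⟨h, h3⟩
      · exact Or.inr ⟨h, h3⟩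
  · rw [disjoint_left]
    intro p h1 h2
    simp only [Finset.mem_filter, mem_univ, true_and] at h1 h2
    exact lt_asymm h1.2 h2.2

theorem hasConsec_rev {k n : ℕ} (π : Equiv.Perm (Fin k)) (σ : Equiv.Perm (Fin n))
    (h : HasConsec (revP π) (revP σ)) : HasConsec π σ := by
  obtain ⟨i, hi, H⟩ := h
  refine ⟨n - k - i, by omega, fun a b => ?_⟩
  have h1 := H a.rev b.rev
  simp only [revP_apply, Fin.rev_rev] at h1
  have e : ∀ a : Fin k, (Fin.rev (⟨i + (a.rev : ℕ), by omega⟩ : Fin n)) =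
      ⟨n - k - i + a, by omega⟩ := by
    intro a
    ext
    simp only [Fin.val_rev]
    omega
  rw [e a, e b] at h1
  exact h1

/-- number of the permutations with `m` inversions and without the pattern -/
noncomputable def badc {k : ℕ} (π : Equiv.Perm (Fin k)) (n m : ℕ) : ℕ :=
  (univ.filter fun σ : Equiv.Perm (Fin n) => inv σ = m ∧ ¬ HasConsec π σ).card

theorem badc_rev {k : ℕ} (π : Equiv.Perm (Fin k)) (n m : ℕ) :
    badc π n m ≤ badc (revP π) n (n.choose 2 - m) := by
  unfold badc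
  refine card_le_card_of_injOn (fun σ => revP σ) (fun σ hσ => ?_) (fun x _ y _ h => revP_inj h)
  have h1 := Finset.mem_filter.1 (mem_coe.1 hσ)
  refine mem_coe.2 (Finset.mem_filter.2 ⟨mem_univ _, ?_, ?_⟩)
  · have := inv_rev σ
    change inv (revP σ) = n.choose 2 - m
    omega
  · intro h2
    exact h1.2.2 (hasConsec_rev π σ h2)

theorem badc_le {k : ℕ} (hk : 1 ≤ k) (π : Equiv.Perm (Fin k)) (n m : ℕ)
    (hm : 2 * m ≤ n.choose 2) (hn : 8 * k * k ≤ n) :
    (badc π n m : ℝ) / FF n m ≤ 120 * (1 + k) * Real.exp (-((1 / (64 * (k : ℝ) * k)) ^ k *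
        (((m : ℝ) / (m + n)) ^ (inv π) * ((n / (4 * k) : ℕ) : ℝ)))) := by
  have h2 : 4 * k * (n / (4 * k)) ≤ n := Nat.mul_div_le n (4 * k)
  have h3 : 4 * k * k + 2 * k * (n / (4 * k)) ≤ n := by nlinarith
  have h := main_est hk π n m (n / (4 * k)) hm h3
  have hF : (0 : ℝ) < FF n m := by exact_mod_cast FF_pos n m (by omega)
  rw [div_le_iff₀ hF]
  unfold badc
  refine h.trans (le_of_eq ?_)
  rw [mul_assoc ((1 / (64 * (k : ℝ) * k)) ^ k)]

theorem lim_aux (k : ℕ) (hk : 1 ≤ k) (s : ℕ) (f : ℕ → ℕ)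
    (hf : s ≠ 0 → (fun n : ℕ => (n : ℝ) ^ (1 - 1 / (s : ℝ))) =o[atTop] (fun n => (f n : ℝ))) :
    Tendsto (fun n : ℕ => ((f n : ℝ) / (f n + n)) ^ s * ((n / (4 * k) : ℕ) : ℝ)) atTop atTop := by
  have hL : Tendsto (fun n : ℕ => ((n / (4 * k) : ℕ) : ℝ)) atTop atTop :=
    tendsto_natCast_atTop_atTop.comp (Nat.tendsto_div_const_atTop (by omega))
  rcases Nat.eq_zero_or_pos s with rfl | hs
  · simpa using hL
  have hk0 : (1 : ℝ) ≤ k := by exact_mod_cast hk
  rw [tendsto_atTop]
  intro B0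
  obtain ⟨B, hB1, hB0⟩ : ∃ B : ℝ, 1 ≤ B ∧ B0 ≤ B := ⟨max 1 B0, le_max_left _ _, le_max_right _ _⟩
  set C : ℝ := 2 ^ s * (8 * k) * B with hC
  have h2s : (1 : ℝ) ≤ 2 ^ s := one_le_pow₀ (by norm_num)
  have hC1 : 1 ≤ C := by
    rw [hC]
    nlinarith [mul_nonneg (by linarith : (0 : ℝ) ≤ 2 ^ s - 1) (by linarith : (0 : ℝ) ≤ (k : ℝ)),
      mul_nonneg (mul_nonneg (by linarith : (0 : ℝ) ≤ 2 ^ s) (by linarith : (0 : ℝ) ≤ 8 * (k : ℝ)))
        (by linarith : (0 : ℝ) ≤ B - 1)]
  have hf1 := (isLittleO_iff.1 (hf (by omega))) (show (0 : ℝ) < 1 / C by positivity)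
  filter_upwards [hf1, hL.eventually_ge_atTop (2 ^ s * B), eventually_ge_atTop (8 * k),
    eventually_ge_atTop 1] with n h1 h2 h3 h4
  have hn0 : (0 : ℝ) < n := by exact_mod_cast h4
  have hf0 : (0 : ℝ) ≤ f n := Nat.cast_nonneg _
  refine hB0.trans ?_
  rcases le_total (n : ℝ) (f n) with hfn | hfn
  · have h5 : 1 / 2 ≤ (f n : ℝ) / (f n + n) := by
      rw [div_le_div_iff₀ (by norm_num) (by positivity)]
      linarith
    calc B = (1 / 2) ^ s * (2 ^ s * B) := by
          rw [← mul_assoc, ← mul_pow]; norm_num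
      _ ≤ ((f n : ℝ) / (f n + n)) ^ s * ((n / (4 * k) : ℕ) : ℝ) := by gcongr
  · have h5 : (f n : ℝ) / (2 * n) ≤ (f n : ℝ) / (f n + n) := by
      apply div_le_div_of_nonneg_left hf0 (by positivity)
      linarith
    have h6 : (n : ℝ) / (8 * k) ≤ ((n / (4 * k) : ℕ) : ℝ) := by
      have h7 : n < 4 * k * (n / (4 * k) + 1) := Nat.lt_mul_div_succ n (by omega)
      have h8 : (n : ℝ) < 4 * k * (((n / (4 * k) : ℕ) : ℝ) + 1) := by exact_mod_cast h7
      have h9 : (8 * (k : ℝ)) ≤ n := by exact_mod_cast h3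
      rw [div_le_iff₀ (by positivity)]
      nlinarith
    have h7 : C * (n : ℝ) ^ (1 - 1 / (s : ℝ)) ≤ f n := by
      rw [Real.norm_of_nonneg (by positivity), Real.norm_of_nonneg hf0, div_mul_eq_mul_div,
        one_mul, le_div_iff₀ (by positivity)] at h1
      linarith
    have h8 : (C * (n : ℝ) ^ (1 - 1 / (s : ℝ))) ^ s = C ^ s * (n : ℝ) ^ (s - 1 : ℕ) := by
      rw [mul_pow]
      congr 1
      rw [← Real.rpow_natCast ((n : ℝ) ^ (1 - 1 / (s : ℝ))) s, ← Real.rpow_mul hn0.le,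
        ← Real.rpow_natCast (n : ℝ) (s - 1)]
      congr 1
      rw [Nat.cast_sub hs]
      have : (s : ℝ) ≠ 0 := by exact_mod_cast (by omega : s ≠ 0)
      field_simp
      norm_num
    have hCs : C ≤ C ^ s := le_self_pow₀ hC1 (by omega)
    have hid : ∀ (D : ℝ) (t : ℕ), D ^ (t + 1) / (2 ^ (t + 1) * (8 * (k : ℝ))) =
        (D ^ (t + 1) * (n : ℝ) ^ t) / (2 * n) ^ (t + 1) * (n / (8 * k)) := by
      intro D t
      rw [mul_pow, pow_succ (n : ℝ) t]
      field_simp
    calc B = C / (2 ^ s * (8 * k)) := by rw [hC]; field_simp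
      _ ≤ C ^ s / (2 ^ s * (8 * k)) := by gcongr
      _ = (C ^ s * (n : ℝ) ^ (s - 1 : ℕ)) / (2 * n) ^ s * (n / (8 * k)) := by
          have e := hid C (s - 1)
          rw [show s - 1 + 1 = s by omega] at e
          exact e
      _ ≤ (f n : ℝ) ^ s / (2 * n) ^ s * (n / (8 * k)) := by
          rw [← h8]
          gcongr
      _ = ((f n : ℝ) / (2 * n)) ^ s * (n / (8 * k)) := by rw [div_pow]
      _ ≤ ((f n : ℝ) / (f n + n)) ^ s * ((n / (4 * k) : ℕ) : ℝ) := by gcongr

theorem main_limit (k : ℕ) (hk : 1 ≤ k) (π : Equiv.Perm (Fin k)) (m : ℕ → ℕ)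
    (hm : ∀ n, m n ≤ n.choose 2)
    (hlow : inv π ≠ 0 →
      (fun n : ℕ => (n : ℝ) ^ (1 - 1 / (inv π : ℝ))) =o[atTop] (fun n => (m n : ℝ)))
    (hupp : k.choose 2 - inv π ≠ 0 →
      (fun n : ℕ => (n : ℝ) ^ (1 - 1 / ((k.choose 2 - inv π : ℕ) : ℝ))) =o[atTop]
        (fun n => ((n.choose 2 : ℝ) - m n))) :
    Tendsto (fun n =>
      ((univ.filter fun σ : Equiv.Perm (Fin n) => inv σ = m n ∧ HasConsec π σ).card : ℝ) /
        ((univ.filter fun σ : Equiv.Perm (Fin n) => inv σ = m n).card : ℝ)) atTop (𝓝 1) := by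
  have hinv : inv (revP π) = k.choose 2 - inv π := by
    have := inv_rev π
    omega
  have hX := lim_aux k hk (inv π) m hlow
  have hY := lim_aux k hk (inv (revP π)) (fun n => n.choose 2 - m n) (by
    rw [hinv]
    intro h
    have h1 := hupp h
    have e : (fun n : ℕ => ((n.choose 2 - m n : ℕ) : ℝ)) =
        fun n => ((n.choose 2 : ℝ) - m n) := by
      funext n
      rw [Nat.cast_sub (hm n)]
    rw [e]
    exact h1)
  set c : ℝ := (1 / (64 * (k : ℝ) * k)) ^ k with hc
  have hk0 : (1 : ℝ) ≤ k := by exact_mod_cast hk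
  have hcpos : 0 < c := by positivity
  set bX : ℕ → ℝ := fun n => 120 * (1 + (k : ℝ)) * Real.exp (-(c *
    (((m n : ℝ) / (m n + n)) ^ (inv π) * ((n / (4 * k) : ℕ) : ℝ)))) with hbX
  set bY : ℕ → ℝ := fun n => 120 * (1 + (k : ℝ)) * Real.exp (-(c *
    ((((n.choose 2 - m n : ℕ) : ℝ) / (((n.choose 2 - m n : ℕ) : ℝ) + n)) ^ (inv (revP π)) *
      ((n / (4 * k) : ℕ) : ℝ)))) with hbY
  have hX0 : Tendsto bX atTop (𝓝 0) := by
    have h1 := Real.tendsto_exp_neg_atTop_nhds_zero.comp (hX.const_mul_atTop hcpos)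
    have h2 := h1.const_mul (120 * (1 + (k : ℝ)))
    rw [mul_zero] at h2
    exact h2
  have hY0 : Tendsto bY atTop (𝓝 0) := by
    have h1 := Real.tendsto_exp_neg_atTop_nhds_zero.comp (hY.const_mul_atTop hcpos)
    have h2 := h1.const_mul (120 * (1 + (k : ℝ)))
    rw [mul_zero] at h2
    exact h2
  have hD : Tendsto (fun n => (badc π n (m n) : ℝ) / FF n (m n)) atTop (𝓝 0) := by
    have hXY := hX0.add hY0
    rw [add_zero] at hXY
    refine squeeze_zero' (Eventually.of_forall fun n => by positivity) ?_ hXY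
    filter_upwards [eventually_ge_atTop (8 * k * k)] with n hn
    have pX : 0 < bX n := by simp only [hbX]; positivity
    have pY : 0 < bY n := by simp only [hbY]; positivity
    rcases Nat.lt_or_ge (n.choose 2) (2 * m n) with h | h
    · have h1 := badc_rev π n (m n)
      have h2 := badc_le hk (revP π) n (n.choose 2 - m n) (by omega) hn
      rw [FF_symm n (m n) (hm n)] at h2
      have hF : (0 : ℝ) < FF n (m n) := by exact_mod_cast FF_pos n (m n) (hm n)
      have h3 : (badc π n (m n) : ℝ) / FF n (m n) ≤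
          (badc (revP π) n (n.choose 2 - m n) : ℝ) / FF n (m n) := by
        gcongr
      have h4 : (badc (revP π) n (n.choose 2 - m n) : ℝ) / FF n (m n) ≤ bY n := h2
      linarith
    · have h2 : (badc π n (m n) : ℝ) / FF n (m n) ≤ bX n := badc_le hk π n (m n) h hn
      linarith
  have hfin : (fun n =>
      ((univ.filter fun σ : Equiv.Perm (Fin n) => inv σ = m n ∧ HasConsec π σ).card : ℝ) /
        ((univ.filter fun σ : Equiv.Perm (Fin n) => inv σ = m n).card : ℝ)) =
      fun n => 1 - (badc π n (m n) : ℝ) / FF n (m n) := by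
    funext n
    have hF : (0 : ℝ) < FF n (m n) := by exact_mod_cast FF_pos n (m n) (hm n)
    have h1 : (univ.filter fun σ : Equiv.Perm (Fin n) => inv σ = m n ∧ HasConsec π σ).card +
        badc π n (m n) = FF n (m n) := by
      rw [← card_inv, badc, ← filter_filter, ← filter_filter]
      exact card_filter_add_card_filter_not _
    have h2 : ((univ.filter fun σ : Equiv.Perm (Fin n) => inv σ = m n ∧ HasConsec π σ).card : ℝ) +
        badc π n (m n) = FF n (m n) := by exact_mod_cast h1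
    rw [card_inv, eq_sub_iff_add_eq, ← add_div, h2, div_self hF.ne']
  rw [hfin]
  have := hD.const_sub 1
  rwa [sub_zero] at this

end Pool.Agent.R82.CP
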