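import Pool.Agent.R82.CP.Ex

/-! Local bounds: maximal probability versus variance. -/

set_option autoImplicit false
open Finset
open scoped Classical

namespace Pool.Agent.R82.CP

variable {q : ℝ}

theorem SU_le (U : Set ℕ) (n : ℕ) (c : ℕ → ℕ) (hc : c ∈ codes n) : SU U n c ≤ n.choose 2 := by
  have := SU_compl U n c
  have := sm_le n c hc
  omega

theorem E_val (U : Set ℕ) (n : ℕ) (g : ℕ → ℝ) :
    E q n (fun c => g (SU U n c)) =
      ∑ y ∈ range (n.choose 2 + 1), ff q U n (y : ℤ) * g y := by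
  have h1 : E q n (fun c => g (SU U n c)) =
      E q n (fun c => ∑ y ∈ range (n.choose 2 + 1),
        g y * (if ((SU U n c : ℕ) : ℤ) = (y : ℤ) then 1 else 0)) := by
    refine E_congr n _ _ fun c hc => ?_
    have h2 := SU_le U n c hc
    rw [sum_eq_single (SU U n c)]
    · simp
    · intro y _ hy
      rw [if_neg (by exact_mod_cast hy.symm), mul_zero]
    · intro h
      exact absurd (mem_range.2 (by omega)) h
  rw [h1, E_sum]
  refine sum_congr rfl fun y _ => ?_
  rw [E_mul_left, mul_comm]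
  rfl

theorem ff_neg (U : Set ℕ) (n : ℕ) (y : ℤ) (hy : y < 0) : ff q U n y = 0 := by
  unfold ff
  rw [E_congr n _ (fun _ => 0) (fun c _ => if_neg (by omega))]
  simp [E]

theorem ff_big (U : Set ℕ) (n : ℕ) (y : ℤ) (hy : (n.choose 2 : ℤ) < y) : ff q U n y = 0 := by
  unfold ff
  rw [E_congr n _ (fun _ => 0) (fun c hc => if_neg (by have := SU_le U n c hc; omega))]
  simp [E]

theorem ff_sum (hq : 0 ≤ q) (U : Set ℕ) (n : ℕ) :
    ∑ y ∈ range (n.choose 2 + 1), ff q U n (y : ℤ) = 1 := by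
  have := E_val (q := q) U n (fun _ => 1)
  simp only [mul_one] at this
  rw [← this, E_const hq]

theorem ff_sum_le (hq : 0 ≤ q) (U : Set ℕ) (n : ℕ) (s : Finset ℤ) :
    ∑ y ∈ s, ff q U n y ≤ 1 := by
  rw [← ff_sum hq U n]
  have h1 : ∑ y ∈ range (n.choose 2 + 1), ff q U n (y : ℤ) =
      ∑ y ∈ (range (n.choose 2 + 1)).image (fun y : ℕ => (y : ℤ)), ff q U n y := by
    rw [sum_image]
    intro x _ y _ h
    have h' : (x : ℤ) = y := h
    exact_mod_cast h'
  rw [h1]
  rw [← sum_filter_add_sum_filter_not s (fun y => y ∈ (range (n.choose 2 + 1)).image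
    (fun y : ℕ => (y : ℤ)))]
  have h2 : ∑ y ∈ s with y ∉ (range (n.choose 2 + 1)).image (fun y : ℕ => (y : ℤ)),
      ff q U n y = 0 := by
    refine sum_eq_zero fun y hy => ?_
    have h3 := (mem_filter.1 hy).2
    rcases lt_or_ge y 0 with h4 | h4
    · exact ff_neg U n y h4
    · refine ff_big U n y ?_
      by_contra h5
      apply h3
      rw [mem_image]
      refine ⟨y.toNat, mem_range.2 ?_, ?_⟩
      · omega
      · omega
  rw [h2, add_zero]
  exact sum_le_sum_of_subset_of_nonneg (fun y hy => (mem_filter.1 hy).2)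
    fun y _ _ => ff_nonneg hq U n y

theorem tail (g : ℕ → ℝ) (hg : ∀ r, 0 ≤ g r) (T : ℕ) (h1 : ∀ R, ∑ r ∈ range R, g r ≤ 1)
    (h2 : ∀ r, g (r + T) ≤ g r / 2) (R : ℕ) :
    ∑ r ∈ range R, (r : ℝ) ^ 2 * g r ≤ 10 * (T : ℝ) ^ 2 := by
  have hT : (0 : ℝ) ≤ (T : ℝ) ^ 2 := by positivity
  have hsmall : ∀ R, R ≤ T → ∑ r ∈ range R, (r : ℝ) ^ 2 * g r ≤ (T : ℝ) ^ 2 := by
    intro R hR
    calc ∑ r ∈ range R, (r : ℝ) ^ 2 * g r ≤ ∑ r ∈ range R, (T : ℝ) ^ 2 * g r := by
          refine sum_le_sum fun r hr => ?_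
          have h3 : (r : ℝ) ≤ T := by
            have := mem_range.1 hr
            exact_mod_cast (by omega : r ≤ T)
          have h4 : (r : ℝ) ^ 2 ≤ (T : ℝ) ^ 2 := by gcongr
          exact mul_le_mul_of_nonneg_right h4 (hg r)
      _ = (T : ℝ) ^ 2 * ∑ r ∈ range R, g r := by rw [mul_sum]
      _ ≤ (T : ℝ) ^ 2 * 1 := by gcongr; exact h1 R
      _ = _ := by ring
  rcases le_total R T with hR | hR
  · have := hsmall R hR
    linarith
  · obtain ⟨R', rfl⟩ := Nat.exists_eq_add_of_le hR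
    set V := ∑ r ∈ range (T + R'), (r : ℝ) ^ 2 * g r with hV
    have e1 : V = ∑ r ∈ range T, (r : ℝ) ^ 2 * g r +
        ∑ r ∈ range R', ((T + r : ℕ) : ℝ) ^ 2 * g (T + r) := by
      rw [hV, sum_range_add]
    have e2 : ∑ r ∈ range R', (r : ℝ) ^ 2 * g r ≤ V := by
      rw [hV]
      refine sum_le_sum_of_subset_of_nonneg (range_subset_range.2 (by omega)) fun r _ _ => ?_
      exact mul_nonneg (by positivity) (hg r)
    have e3 : ∑ r ∈ range R', ((T + r : ℕ) : ℝ) ^ 2 * g (T + r) ≤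
        ∑ r ∈ range R', ((3 / 4) * ((r : ℝ) ^ 2 * g r) + (3 / 2) * (T : ℝ) ^ 2 * g r) := by
      refine sum_le_sum fun r _ => ?_
      have h3 := h2 r
      rw [add_comm r T] at h3
      have h4 : ((T + r : ℕ) : ℝ) ^ 2 ≤ (3 / 2) * (r : ℝ) ^ 2 + 3 * (T : ℝ) ^ 2 := by
        push_cast
        nlinarith [sq_nonneg ((r : ℝ) - 2 * T)]
      calc ((T + r : ℕ) : ℝ) ^ 2 * g (T + r)
          ≤ ((3 / 2) * (r : ℝ) ^ 2 + 3 * (T : ℝ) ^ 2) * (g r / 2) :=
            mul_le_mul h4 h3 (hg _) (by positivity)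
        _ = _ := by ring
    rw [sum_add_distrib, ← mul_sum, ← mul_sum] at e3
    have e4 := hsmall T le_rfl
    have e5 : (3 / 2) * (T : ℝ) ^ 2 * ∑ r ∈ range R', g r ≤ (3 / 2) * (T : ℝ) ^ 2 * 1 := by
      gcongr
      exact h1 R'
    linarith

theorem half {f : ℤ → ℝ} (hf : LC f) (h0 : ∀ y, 0 ≤ f y) (y0 : ℤ) (M : ℝ) (hM : 0 < M)
    (hy0 : f y0 = M) (hmax : ∀ y, f y ≤ M) (T : ℕ) (hT : 2 ≤ T * M)
    (h1 : ∀ R : ℕ, ∑ r ∈ range R, f (y0 + r) ≤ 1) (r : ℕ) :
    f (y0 + ((r + T : ℕ) : ℤ)) ≤ f (y0 + r) / 2 := by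
  have key : f (y0 + T) ≤ M / 2 := by
    by_contra hcon
    push Not at hcon
    have h2 : ∀ r ∈ range T, f (y0 + T) ≤ f (y0 + r) := by
      intro r hr
      have hr' : (r : ℤ) ≤ T := by exact_mod_cast (mem_range.1 hr).le
      have h3 := hf.pair y0 (y0 + T) (y0 + r) (y0 + (T - r)) (by linarith [Int.natCast_nonneg r])
        (by linarith) (by ring)
      have h4 : f (y0 + r) * f (y0 + (T - r)) ≤ f (y0 + r) * M :=
        mul_le_mul_of_nonneg_left (hmax _) (h0 _)
      rw [hy0] at h3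
      have h5 : M * f (y0 + T) ≤ M * f (y0 + r) := by linarith
      exact le_of_mul_le_mul_left h5 hM
    have h3 := h1 T
    have h4 : (T : ℝ) * f (y0 + T) ≤ ∑ r ∈ range T, f (y0 + r) := by
      have := sum_le_sum h2
      rwa [sum_const, card_range, nsmul_eq_mul] at this
    have hTpos : (0 : ℝ) < T := by
      rcases Nat.eq_zero_or_pos T with h5 | h5
      · rw [h5] at hT; norm_num at hT
      · exact_mod_cast h5
    have h5 : (T : ℝ) * (M / 2) < T * f (y0 + T) := mul_lt_mul_of_pos_left hcon hTpos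
    linarith
  have h2 := hf.pair y0 (y0 + ((r + T : ℕ) : ℤ)) (y0 + T) (y0 + r)
    (by linarith [Int.natCast_nonneg T]) (by linarith [Int.natCast_nonneg r]) (by push_cast; ring)
  rw [hy0] at h2
  have h3 : f (y0 + T) * f (y0 + r) ≤ M / 2 * f (y0 + r) :=
    mul_le_mul_of_nonneg_right key (h0 _)
  have h4 : M * f (y0 + ((r + T : ℕ) : ℤ)) ≤ M * (f (y0 + r) / 2) := by linarith
  exact le_of_mul_le_mul_left h4 hM

theorem LC.refl {f : ℤ → ℝ} (hf : LC f) : LC (fun y => f (-y)) := by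
  intro x y hxy
  have h := hf (-y - 1) (-x - 1) (by linarith)
  rw [show -x - 1 + 1 = -x by ring, show -y - 1 + 1 = -y by ring] at h
  change f (-x) * f (-(y + 1)) ≤ f (-(x + 1)) * f (-y)
  rw [show -(y + 1) = -y - 1 by ring, show -(x + 1) = -x - 1 by ring]
  linarith

/-- second moment about the mode -/
theorem second_moment (hq : 0 ≤ q) (U : Set ℕ) (n : ℕ) (y0 : ℕ) (M : ℝ) (hM : 0 < M)
    (hy0 : ff q U n y0 = M) (hmax : ∀ y, ff q U n y ≤ M) :
    E q n (fun c => ((SU U n c : ℝ) - y0) ^ 2) * M ^ 2 ≤ 180 := by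
  set f := ff q U n with hf
  have hLC : LC f := ff_LC hq U n
  have h0 : ∀ y, 0 ≤ f y := ff_nonneg hq U n
  have hM1 : M ≤ 1 := by
    have := ff_sum_le hq U n {(y0 : ℤ)}
    rw [sum_singleton, ← hf, hy0] at this
    exact this
  set T : ℕ := ⌈2 / M⌉₊ with hT
  have hT1 : 2 / M ≤ T := Nat.le_ceil _
  have hT2 : (T : ℝ) ≤ 2 / M + 1 := (Nat.ceil_lt_add_one (by positivity)).le
  have hTM : 2 ≤ T * M := by
    rw [div_le_iff₀ hM] at hT1
    exact hT1
  have hTM3 : T * M ≤ 3 := by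
    have : (T : ℝ) * M ≤ (2 / M + 1) * M := mul_le_mul_of_nonneg_right hT2 hM.le
    have h2 : (2 / M + 1) * M = 2 + M := by field_simp
    linarith
  have hsR : ∀ R : ℕ, ∑ r ∈ range R, f ((y0 : ℤ) + r) ≤ 1 := by
    intro R
    have h1 : ∑ r ∈ range R, f ((y0 : ℤ) + r) =
        ∑ y ∈ (range R).image (fun r : ℕ => (y0 : ℤ) + r), f y := by
      rw [sum_image]
      intro x _ y _ h
      simpa using h
    rw [h1]
    exact ff_sum_le hq U n _
  have hsL : ∀ R : ℕ, ∑ r ∈ range R, f (-(-(y0 : ℤ) + r)) ≤ 1 := by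
    intro R
    have h1 : ∑ r ∈ range R, f (-(-(y0 : ℤ) + r)) =
        ∑ y ∈ (range R).image (fun r : ℕ => -(-(y0 : ℤ) + r)), f y := by
      rw [sum_image]
      intro x _ y _ h
      simpa using h
    rw [h1]
    exact ff_sum_le hq U n _
  have hR := tail (fun r => f ((y0 : ℤ) + r)) (fun r => h0 _) T hsR
    (half hLC h0 y0 M hM hy0 hmax T hTM hsR)
  have hL := tail (fun r => f (-(-(y0 : ℤ) + r))) (fun r => h0 _) T hsL
    (half (f := fun y => f (-y)) hLC.refl (fun y => h0 _) (-(y0 : ℤ)) M hM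
      (by simpa using hy0) (fun y => hmax _) T hTM hsL)
  set N := n.choose 2 + 1 with hN
  have e1 : E q n (fun c => ((SU U n c : ℝ) - y0) ^ 2) ≤ 20 * (T : ℝ) ^ 2 := by
    have e2 := E_val (q := q) U n (fun y => ((y : ℝ) - y0) ^ 2)
    rw [e2, ← sum_filter_add_sum_filter_not (range N) (fun y => y0 ≤ y)]
    have e3 : ∑ y ∈ range N with y0 ≤ y, ff q U n (y : ℤ) * ((y : ℝ) - y0) ^ 2 ≤
        ∑ r ∈ range N, (r : ℝ) ^ 2 * f ((y0 : ℤ) + r) := by
      have h1 : ∑ r ∈ range N, (r : ℝ) ^ 2 * f ((y0 : ℤ) + r) =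
          ∑ y ∈ (range N).image (fun r => y0 + r), f y * ((y : ℝ) - y0) ^ 2 := by
        rw [sum_image]
        · refine sum_congr rfl fun r _ => ?_
          push_cast
          ring
        · intro x _ y _ h
          simpa using h
      rw [h1]
      refine sum_le_sum_of_subset_of_nonneg (fun y hy => ?_) fun y _ _ =>
        mul_nonneg (h0 _) (sq_nonneg _)
      rw [mem_filter, mem_range] at hy
      rw [mem_image]
      exact ⟨y - y0, mem_range.2 (by omega), by omega⟩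
    have e4 : ∑ y ∈ range N with ¬ y0 ≤ y, ff q U n (y : ℤ) * ((y : ℝ) - y0) ^ 2 ≤
        ∑ r ∈ range (y0 + 1), (r : ℝ) ^ 2 * f (-(-(y0 : ℤ) + r)) := by
      have h1 : ∑ r ∈ range (y0 + 1), (r : ℝ) ^ 2 * f (-(-(y0 : ℤ) + r)) =
          ∑ y ∈ (range (y0 + 1)).image (fun r => y0 - r), f y * ((y : ℝ) - y0) ^ 2 := by
        rw [sum_image]
        · refine sum_congr rfl fun r hr => ?_
          have hr' : r ≤ y0 := by have := mem_range.1 hr; omega
          rw [Nat.cast_sub hr']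
          rw [show -(-(y0 : ℤ) + r) = (y0 : ℤ) - r by ring]
          push_cast [Nat.cast_sub hr']
          ring
        · intro x hx y hy h
          have h1 := mem_range.1 (mem_coe.1 hx)
          have h2 := mem_range.1 (mem_coe.1 hy)
          simp only at h
          omega
      rw [h1]
      refine sum_le_sum_of_subset_of_nonneg (fun y hy => ?_) fun y _ _ =>
        mul_nonneg (h0 _) (sq_nonneg _)
      rw [mem_filter, mem_range] at hy
      rw [mem_image]
      exact ⟨y0 - y, mem_range.2 (by omega), by omega⟩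
    have := hR N
    have := hL (y0 + 1)
    linarith
  calc E q n (fun c => ((SU U n c : ℝ) - y0) ^ 2) * M ^ 2 ≤ 20 * (T : ℝ) ^ 2 * M ^ 2 :=
        mul_le_mul_of_nonneg_right e1 (by positivity)
    _ = 20 * (T * M) ^ 2 := by ring
    _ ≤ 20 * 3 ^ 2 := by gcongr
    _ = 180 := by norm_num

/-- the mode exists -/
theorem exists_mode (hq : 0 ≤ q) (U : Set ℕ) (n : ℕ) :
    ∃ y0 : ℕ, 0 < ff q U n y0 ∧ ∀ y, ff q U n y ≤ ff q U n y0 := by
  obtain ⟨y0, hy0, hmax⟩ := exists_max_image (range (n.choose 2 + 1)) (fun y : ℕ => ff q U n y)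
    ⟨0, mem_range.2 (Nat.succ_pos _)⟩
  have hpos : 0 < ff q U n y0 := by
    by_contra h
    have h1 : ∑ y ∈ range (n.choose 2 + 1), ff q U n (y : ℤ) ≤ 0 :=
      sum_nonpos fun y hy => (hmax y hy).trans (not_lt.1 h)
    rw [ff_sum hq] at h1
    linarith
  refine ⟨y0, hpos, fun y => ?_⟩
  rcases lt_or_ge y 0 with h1 | h1
  · rw [ff_neg U n y h1]; exact hpos.le
  · rcases lt_or_ge (n.choose 2 : ℤ) y with h2 | h2
    · rw [ff_big U n y h2]; exact hpos.le
    · have := hmax y.toNat (mem_range.2 (by omega))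
      rwa [Int.toNat_of_nonneg h1] at this

/-! ### Variances -/

/-- mean of a coordinate -/
noncomputable def mj (q : ℝ) (j : ℕ) : ℝ := ∑ r ∈ range (j + 1), pp q j r * r

/-- variance of a coordinate -/
noncomputable def vj (q : ℝ) (j : ℕ) : ℝ := ∑ r ∈ range (j + 1), pp q j r * ((r : ℝ) - mj q j) ^ 2

theorem vj_nonneg (hq : 0 ≤ q) (j : ℕ) : 0 ≤ vj q j :=
  sum_nonneg fun r _ => mul_nonneg (pp_nonneg hq _ _) (sq_nonneg _)

theorem vj_shift (hq : 0 ≤ q) (j : ℕ) (a : ℝ) :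
    vj q j ≤ ∑ r ∈ range (j + 1), pp q j r * ((r : ℝ) - a) ^ 2 := by
  have h1 : ∑ r ∈ range (j + 1), pp q j r * ((r : ℝ) - a) ^ 2 =
      vj q j + 2 * (mj q j - a) * (∑ r ∈ range (j + 1), pp q j r * r
        - mj q j * ∑ r ∈ range (j + 1), pp q j r)
        + (mj q j - a) ^ 2 * ∑ r ∈ range (j + 1), pp q j r := by
    have h2 : ∀ r : ℕ, pp q j r * ((r : ℝ) - a) ^ 2 = pp q j r * ((r : ℝ) - mj q j) ^ 2 +
        2 * (mj q j - a) * (pp q j r * r - mj q j * pp q j r) + (mj q j - a) ^ 2 * pp q j r :=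
      fun r => by ring
    simp only [h2, sum_add_distrib, ← mul_sum, sum_sub_distrib]
    rfl
  rw [h1, pp_sum hq, show ∑ r ∈ range (j + 1), pp q j r * (r : ℝ) = mj q j from rfl]
  nlinarith [sq_nonneg (mj q j - a)]

theorem vj_comp (hq : 0 ≤ q) (hq1 : q ≤ 1) (i k : ℕ) : vj q i ≤ (1 + k) * vj q (i + k) := by
  have hZi := ZZ_one_le hq i
  have hZ : ZZ q (i + k) ≤ (1 + k) * ZZ q i := by
    have h1 : ZZ q (i + k) = ZZ q i + ∑ r ∈ range k, q ^ (i + 1 + r) := by
      unfold ZZ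
      rw [show i + k + 1 = (i + 1) + k by ring, sum_range_add]
    have h2 : ∑ r ∈ range k, q ^ (i + 1 + r) ≤ k := by
      have : ∑ r ∈ range k, q ^ (i + 1 + r) ≤ ∑ _r ∈ range k, (1 : ℝ) :=
        sum_le_sum fun r _ => pow_le_one₀ hq hq1
      simpa using this
    have h3 : (k : ℝ) ≤ k * ZZ q i := le_mul_of_one_le_right (Nat.cast_nonneg _) hZi
    rw [h1]
    linarith
  have hZi0 := ZZ_pos hq i
  have hZj0 := ZZ_pos hq (i + k)
  have h1 : vj q i * (ZZ q i / ZZ q (i + k)) ≤ vj q (i + k) := by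
    have h2 := vj_shift hq i (mj q (i + k))
    have h3 : (∑ r ∈ range (i + 1), pp q i r * ((r : ℝ) - mj q (i + k)) ^ 2) *
        (ZZ q i / ZZ q (i + k)) =
        ∑ r ∈ range (i + 1), pp q (i + k) r * ((r : ℝ) - mj q (i + k)) ^ 2 := by
      rw [sum_mul]
      refine sum_congr rfl fun r _ => ?_
      simp only [pp]
      field_simp
    have h4 : ∑ r ∈ range (i + 1), pp q (i + k) r * ((r : ℝ) - mj q (i + k)) ^ 2 ≤
        vj q (i + k) := by
      unfold vj
      refine sum_le_sum_of_subset_of_nonneg (range_subset_range.2 (by omega)) fun r _ _ => ?_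
      exact mul_nonneg (pp_nonneg hq _ _) (sq_nonneg _)
    have h5 := mul_le_mul_of_nonneg_right h2 (by positivity : 0 ≤ ZZ q i / ZZ q (i + k))
    linarith
  have h2 : vj q i = vj q i * (ZZ q i / ZZ q (i + k)) * (ZZ q (i + k) / ZZ q i) := by
    field_simp
  have h3 : ZZ q (i + k) / ZZ q i ≤ 1 + k := by
    rw [div_le_iff₀ hZi0]; exact hZ
  rw [h2]
  have hv := vj_nonneg hq (i + k)
  calc vj q i * (ZZ q i / ZZ q (i + k)) * (ZZ q (i + k) / ZZ q i)
      ≤ vj q (i + k) * (ZZ q (i + k) / ZZ q i) := by gcongr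
    _ ≤ vj q (i + k) * (1 + k) := by gcongr
    _ = _ := by ring

/-- mean of a partial sum -/
noncomputable def mU (q : ℝ) (U : Set ℕ) (n : ℕ) : ℝ := ∑ j ∈ range n, if j ∈ U then mj q j else 0

/-- variance of a partial sum -/
noncomputable def vU (q : ℝ) (U : Set ℕ) (n : ℕ) : ℝ := ∑ j ∈ range n, if j ∈ U then vj q j else 0

theorem E_mean (hq : 0 ≤ q) (U : Set ℕ) (n : ℕ) :
    E q n (fun c => (SU U n c : ℝ) - mU q U n) = 0 := by
  induction n with
  | zero => rw [E_zero]; simp [SU, mU]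
  | succ n ih =>
    rw [E_succ]
    have h1 : ∀ r : ℕ, E q n (fun c => (SU U (n + 1) (Function.update c n r) : ℝ)
        - mU q U (n + 1)) = if n ∈ U then (r : ℝ) - mj q n else 0 := by
      intro r
      have e1 : (fun c : ℕ → ℕ => (SU U (n + 1) (Function.update c n r) : ℝ) - mU q U (n + 1)) =
          fun c => ((SU U n c : ℝ) - mU q U n) + (if n ∈ U then (r : ℝ) - mj q n else 0) := by
        funext c
        rw [SU_update, mU, sum_range_succ]
        push_cast
        unfold mU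
        split_ifs <;> ring
      rw [e1, E_add, ih, E_const hq, zero_add]
    simp only [h1]
    by_cases h : n ∈ U
    · simp only [h, if_true, mul_sub, sum_sub_distrib]
      rw [← sum_mul, pp_sum hq, one_mul]
      exact sub_self _
    · simp [h]

theorem E_var (hq : 0 ≤ q) (U : Set ℕ) (n : ℕ) :
    E q n (fun c => ((SU U n c : ℝ) - mU q U n) ^ 2) = vU q U n := by
  induction n with
  | zero => rw [E_zero]; simp [SU, mU, vU]
  | succ n ih =>
    rw [E_succ]
    have h1 : ∀ r : ℕ, E q n (fun c => ((SU U (n + 1) (Function.update c n r) : ℝ)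
        - mU q U (n + 1)) ^ 2) = vU q U n + (if n ∈ U then (r : ℝ) - mj q n else 0) ^ 2 := by
      intro r
      set t : ℝ := (if n ∈ U then (r : ℝ) - mj q n else 0) with ht
      have e1 : (fun c : ℕ → ℕ => ((SU U (n + 1) (Function.update c n r) : ℝ)
          - mU q U (n + 1)) ^ 2) =
          fun c => (((SU U n c : ℝ) - mU q U n) ^ 2 + (2 * t) * ((SU U n c : ℝ) - mU q U n))
            + t ^ 2 := by
        funext c
        rw [SU_update, mU, sum_range_succ, ht]
        push_cast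
        unfold mU
        split_ifs <;> ring
      rw [e1, E_add, E_add, ih, E_mul_left, E_mean hq, E_const hq]
      ring
    simp only [h1, mul_add, sum_add_distrib]
    have e2 : vU q U (n + 1) = vU q U n + (if n ∈ U then vj q n else 0) := by
      unfold vU
      rw [sum_range_succ]
    rw [← sum_mul, pp_sum hq, one_mul, e2]
    congr 1
    by_cases h : n ∈ U
    · simp only [h, if_true]
      rfl
    · simp [h]

theorem var_le (hq : 0 ≤ q) (U : Set ℕ) (n : ℕ) (a : ℝ) :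
    vU q U n ≤ E q n (fun c => ((SU U n c : ℝ) - a) ^ 2) := by
  have e1 : (fun c : ℕ → ℕ => ((SU U n c : ℝ) - a) ^ 2) =
      fun c => (((SU U n c : ℝ) - mU q U n) ^ 2 +
        (2 * (mU q U n - a)) * ((SU U n c : ℝ) - mU q U n)) + (mU q U n - a) ^ 2 := by
    funext c; ring
  rw [e1, E_add, E_add, E_var hq, E_mul_left, E_mean hq, E_const hq]
  nlinarith [sq_nonneg (mU q U n - a)]

theorem vU_compl (U : Set ℕ) (n : ℕ) : vU q Set.univ n = vU q U n + vU q Uᶜ n := by
  unfold vU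
  rw [← sum_add_distrib]
  refine sum_congr rfl fun j _ => ?_
  by_cases h : j ∈ U <;> simp [h]

/-- counting integers in an interval -/
theorem count_le (s : Finset ℕ) (μ R : ℝ) (hR : 0 ≤ R) (h : ∀ y ∈ s, |(y : ℝ) - μ| ≤ R) :
    (s.card : ℝ) ≤ 2 * R + 1 := by
  have h1 : s.card ≤ (Finset.Icc ⌈μ - R⌉ ⌊μ + R⌋).card := by
    refine card_le_card_of_injOn (fun y => (y : ℤ)) (fun y hy => ?_) (fun x _ y _ h => by
      have h' : (x : ℤ) = y := h
      exact_mod_cast h')
    have := abs_le.1 (h y hy)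
    simp only [coe_Icc, Set.mem_Icc, Int.ceil_le, Int.le_floor, Int.cast_natCast]
    constructor <;> linarith
  rw [Int.card_Icc] at h1
  have h2 : ((s.card : ℕ) : ℝ) ≤ (((⌊μ + R⌋ + 1 - ⌈μ - R⌉).toNat : ℕ) : ℝ) := by exact_mod_cast h1
  have h3 : (((⌊μ + R⌋ + 1 - ⌈μ - R⌉).toNat : ℕ) : ℝ) ≤ 2 * R + 1 := by
    rcases le_total 0 (⌊μ + R⌋ + 1 - ⌈μ - R⌉) with h4 | h4
    · have h5 : (((⌊μ + R⌋ + 1 - ⌈μ - R⌉).toNat : ℕ) : ℝ) =
          ((⌊μ + R⌋ + 1 - ⌈μ - R⌉ : ℤ) : ℝ) := by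
        have := Int.toNat_of_nonneg h4
        exact_mod_cast this
      rw [h5]
      push_cast
      have h6 := Int.floor_le (μ + R)
      have h7 := Int.le_ceil (μ - R)
      linarith
    · rw [Int.toNat_of_nonpos h4]
      simp; linarith
  linarith

/-- The maximal probability of the sum over `Uᶜ` is at most a constant times the probability of a
mode of the full sum. -/
theorem mode_comp (hq : 0 ≤ q) (U : Set ℕ) (n : ℕ) (K : ℝ) (hK : 1 ≤ K)
    (hv : vU q U n ≤ K * vU q Uᶜ n) (m : ℕ)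
    (hm : ∀ y, ff q Set.univ n y ≤ ff q Set.univ n m) (y : ℤ) :
    ff q Uᶜ n y ≤ 120 * K * ff q Set.univ n m := by
  obtain ⟨y0, hpos, hmax⟩ := exists_mode hq Uᶜ n
  set M := ff q Uᶜ n y0 with hM
  refine (hmax y).trans ?_
  have hM1 : M ≤ 1 := by
    have := ff_sum_le hq Uᶜ n {(y0 : ℤ)}
    rwa [sum_singleton] at this
  have h1 := second_moment hq Uᶜ n y0 M hpos rfl hmax
  have h2 : vU q Uᶜ n * M ^ 2 ≤ 180 :=
    (mul_le_mul_of_nonneg_right (var_le hq Uᶜ n y0) (by positivity)).trans h1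
  have h3 : vU q Set.univ n * M ^ 2 ≤ (K + 1) * 180 := by
    rw [vU_compl U n]
    nlinarith [sq_nonneg M]
  set a : ℝ := 27 * K with ha
  set R : ℝ := a / M with hR
  have ha0 : 0 < a := by positivity
  have hR0 : 0 < R := by positivity
  have hRM : R * M = a := by rw [hR]; field_simp
  have h4 : 2 * vU q Set.univ n ≤ R ^ 2 := by
    have h5 : 2 * vU q Set.univ n * M ^ 2 ≤ R ^ 2 * M ^ 2 := by
      have : R ^ 2 * M ^ 2 = a ^ 2 := by rw [← mul_pow, hRM]
      rw [this, ha]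
      nlinarith
    exact le_of_mul_le_mul_right h5 (by positivity)
  -- Chebyshev
  set μ := mU q Set.univ n with hμ
  have h5 : (1 : ℝ) ≤ vU q Set.univ n / R ^ 2 + (2 * R + 1) * ff q Set.univ n m := by
    have e1 : (1 : ℝ) = E q n (fun _ => 1) := (E_const hq n 1).symm
    have e2 : E q n (fun _ => (1 : ℝ)) ≤ E q n (fun c => (1 / R ^ 2) *
        ((SU Set.univ n c : ℝ) - μ) ^ 2 +
        (if |(SU Set.univ n c : ℝ) - μ| ≤ R then 1 else 0)) := by
      refine E_mono hq n _ _ fun c _ => ?_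
      split_ifs with h
      · have : 0 ≤ (1 / R ^ 2) * ((SU Set.univ n c : ℝ) - μ) ^ 2 := by positivity
        linarith
      · push Not at h
        have h6 : R ^ 2 ≤ ((SU Set.univ n c : ℝ) - μ) ^ 2 := by
          rw [← sq_abs ((SU Set.univ n c : ℝ) - μ)]
          exact pow_le_pow_left₀ hR0.le h.le 2
        have h7 : 1 ≤ (1 / R ^ 2) * ((SU Set.univ n c : ℝ) - μ) ^ 2 := by
          rw [one_div, inv_mul_eq_div, one_le_div (by positivity)]
          exact h6
        linarith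
    rw [E_add, E_mul_left, E_var hq,
      E_val (q := q) Set.univ n (fun y => if |(y : ℝ) - μ| ≤ R then 1 else 0)] at e2
    have e3 : ∑ y ∈ range (n.choose 2 + 1), ff q Set.univ n (y : ℤ) *
        (if |(y : ℝ) - μ| ≤ R then 1 else 0) ≤ (2 * R + 1) * ff q Set.univ n m := by
      calc ∑ y ∈ range (n.choose 2 + 1), ff q Set.univ n (y : ℤ) *
            (if |(y : ℝ) - μ| ≤ R then 1 else 0)
          ≤ ∑ y ∈ range (n.choose 2 + 1), (if |(y : ℝ) - μ| ≤ R then
              ff q Set.univ n m else 0) := by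
            refine sum_le_sum fun y _ => ?_
            split_ifs
            · rw [mul_one]; exact hm y
            · rw [mul_zero]
        _ = ((range (n.choose 2 + 1)).filter (fun y : ℕ => |(y : ℝ) - μ| ≤ R)).card *
              ff q Set.univ n m := by
            rw [← sum_filter, sum_const, nsmul_eq_mul]
        _ ≤ (2 * R + 1) * ff q Set.univ n m := by
            refine mul_le_mul_of_nonneg_right ?_ (ff_nonneg hq _ _ _)
            exact count_le _ μ R hR0.le fun y hy => (mem_filter.1 hy).2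
    have e4 : 1 / R ^ 2 * vU q Set.univ n = vU q Set.univ n / R ^ 2 := by ring
    linarith
  have h6 : vU q Set.univ n / R ^ 2 ≤ 1 / 2 := by
    rw [div_le_iff₀ (by positivity)]
    linarith
  have h7 : 1 / 2 ≤ (2 * R + 1) * ff q Set.univ n m := by linarith
  have h8 : M * (1 / 2) ≤ M * ((2 * R + 1) * ff q Set.univ n m) :=
    mul_le_mul_of_nonneg_left h7 hpos.le
  have h9 : M * ((2 * R + 1) * ff q Set.univ n m) = (2 * a + M) * ff q Set.univ n m := by
    rw [← hRM]; ring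
  have h10 : (2 * a + M) * ff q Set.univ n m ≤ (2 * a + 1) * ff q Set.univ n m := by
    have := ff_nonneg hq Set.univ n m
    nlinarith
  have h11 : (2 * a + 1) * ff q Set.univ n m ≤ (60 * K) * ff q Set.univ n m := by
    refine mul_le_mul_of_nonneg_right ?_ (ff_nonneg hq _ _ _)
    rw [ha]; linarith
  linarith

end Pool.Agent.R82.CP
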