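import Pool.Agent.R82.CP.Loc

/-! The tilting parameter for which `m` is a mode. -/

set_option autoImplicit false
open Finset
open scoped Classical

namespace Pool.Agent.R82.CP

variable {q : ℝ}

/-- total normalisation -/
noncomputable def WW (q : ℝ) (n : ℕ) : ℝ := ∏ j ∈ range n, ZZ q j

theorem WW_pos (hq : 0 ≤ q) (n : ℕ) : 0 < WW q n := prod_pos fun j _ => ZZ_pos hq j

theorem weight_eq (n : ℕ) (c : ℕ → ℕ) :
    ∏ j ∈ range n, pp q j (c j) = q ^ (sm n c) / WW q n := by
  unfold pp WW sm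
  rw [prod_div_distrib, prod_pow_eq_pow_sum]

theorem E_sm (n m : ℕ) (φ : (ℕ → ℕ) → ℝ) :
    E q n (fun c => φ c * (if sm n c = m then 1 else 0)) =
      q ^ m / WW q n * ∑ c ∈ codes n with sm n c = m, φ c := by
  unfold E
  rw [sum_filter, mul_sum]
  refine sum_congr rfl fun c _ => ?_
  rw [weight_eq]
  by_cases h : sm n c = m
  · simp only [h, if_true, mul_one]
  · simp only [h, if_false, mul_zero]

theorem ff_eq (n m : ℕ) : ff q Set.univ n (m : ℤ) = q ^ m / WW q n * FF n m := by
  have h := E_sm (q := q) n m (fun _ => 1)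
  simp only [one_mul, sum_const, nsmul_eq_mul, mul_one] at h
  rw [FF, ← h]
  unfold ff
  refine E_congr n _ _ fun c _ => ?_
  rw [SU_univ]
  by_cases h1 : sm n c = m
  · rw [if_pos (by exact_mod_cast h1), if_pos h1]
  · rw [if_neg (by exact_mod_cast h1), if_neg h1]

theorem WW_one (n : ℕ) : 0 < WW 1 n := WW_pos zero_le_one n

theorem FF_LC (n x y : ℕ) (hxy : x ≤ y) :
    (FF n x : ℝ) * FF n (y + 1) ≤ FF n (x + 1) * FF n y := by
  have h := ff_LC (q := 1) zero_le_one Set.univ n (x : ℤ) (y : ℤ) (by exact_mod_cast hxy)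
  have e1 : ((x : ℤ) + 1) = ((x + 1 : ℕ) : ℤ) := by push_cast; ring
  have e2 : ((y : ℤ) + 1) = ((y + 1 : ℕ) : ℤ) := by push_cast; ring
  rw [e1, e2, ff_eq, ff_eq, ff_eq, ff_eq] at h
  simp only [one_pow] at h
  have hW := WW_one n
  have h2 : 1 / WW 1 n * (FF n x : ℝ) * (1 / WW 1 n * (FF n (y + 1) : ℝ)) =
      (FF n x * FF n (y + 1)) / (WW 1 n * WW 1 n) := by ring
  have h3 : 1 / WW 1 n * (FF n (x + 1) : ℝ) * (1 / WW 1 n * (FF n y : ℝ)) =
      (FF n (x + 1) * FF n y) / (WW 1 n * WW 1 n) := by ring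
  rw [h2, h3] at h
  exact (div_le_div_iff_of_pos_right (by positivity)).1 h

theorem sm_full (n : ℕ) : ∑ j ∈ range n, j = n.choose 2 := by
  rw [Nat.choose_two_right, ← sum_range_id]

/-- complement of a code -/
def cpl (n : ℕ) (c : ℕ → ℕ) (j : ℕ) : ℕ := if j < n then j - c j else 0

theorem cpl_mem (n : ℕ) (c : ℕ → ℕ) : cpl n c ∈ codes n := by
  rw [mem_codes]
  refine ⟨fun j hj => ?_, fun j hj => ?_⟩
  · unfold cpl; rw [if_pos hj]; omega
  · unfold cpl; rw [if_neg (by omega)]

theorem cpl_cpl (n : ℕ) (c : ℕ → ℕ) (hc : c ∈ codes n) : cpl n (cpl n c) = c := by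
  rw [mem_codes] at hc
  funext j
  unfold cpl
  by_cases hj : j < n
  · rw [if_pos hj, if_pos hj]
    have := hc.1 j hj
    omega
  · rw [if_neg hj, hc.2 j (by omega)]

theorem sm_cpl (n : ℕ) (c : ℕ → ℕ) (hc : c ∈ codes n) : sm n (cpl n c) + sm n c = n.choose 2 := by
  rw [← sm_full n, sm, sm, ← sum_add_distrib]
  refine sum_congr rfl fun j hj => ?_
  have hj' := mem_range.1 hj
  have := ((mem_codes n c).1 hc).1 j hj'
  unfold cpl
  rw [if_pos hj']
  omega

theorem FF_symm (n m : ℕ) (hm : m ≤ n.choose 2) : FF n (n.choose 2 - m) = FF n m := by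
  unfold FF
  refine card_bij' (fun c _ => cpl n c) (fun c _ => cpl n c) ?_ ?_ ?_ ?_
  · intro c hc
    rw [mem_filter] at hc ⊢
    have := sm_cpl n c hc.1
    exact ⟨cpl_mem n c, by omega⟩
  · intro c hc
    rw [mem_filter] at hc ⊢
    have := sm_cpl n c hc.1
    exact ⟨cpl_mem n c, by omega⟩
  · intro c hc; exact cpl_cpl n c (mem_filter.1 hc).1
  · intro c hc; exact cpl_cpl n c (mem_filter.1 hc).1

theorem FF_zero_pos (n : ℕ) : 0 < FF n 0 := by
  unfold FF
  rw [card_pos]
  refine ⟨fun _ => 0, mem_filter.2 ⟨?_, ?_⟩⟩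
  · rw [mem_codes]; exact ⟨fun _ _ => Nat.zero_le _, fun _ _ => rfl⟩
  · simp [sm]

theorem FF_pos (n m : ℕ) (hm : m ≤ n.choose 2) : 0 < FF n m := by
  have h := (ff_LC (q := 1) zero_le_one Set.univ n).pair 0 (n.choose 2) m (n.choose 2 - m)
    (by exact_mod_cast Nat.zero_le m) (by
      have : (m : ℤ) ≤ (n.choose 2 : ℤ) := by exact_mod_cast hm
      linarith) (by ring)
  have e1 : (((n.choose 2 : ℕ) : ℤ) - (m : ℤ)) = ((n.choose 2 - m : ℕ) : ℤ) := by
    rw [Nat.cast_sub hm]
  have e0 : (0 : ℤ) = ((0 : ℕ) : ℤ) := rfl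
  rw [e1, e0, ff_eq, ff_eq, ff_eq, ff_eq, FF_symm n m hm] at h
  have h0 : FF n (n.choose 2) = FF n 0 := by
    have := FF_symm n 0 (Nat.zero_le _)
    simpa using this
  rw [h0] at h
  simp only [one_pow] at h
  have hW := WW_one n
  have hF : (0 : ℝ) < FF n 0 := by exact_mod_cast FF_zero_pos n
  by_contra hcon
  have hm0 : FF n m = 0 := by omega
  rw [hm0] at h
  have : 0 < 1 / WW 1 n * (FF n 0 : ℝ) * (1 / WW 1 n * (FF n 0 : ℝ)) := by positivity
  simp at h
  have h3 := mul_pos (mul_pos (inv_pos.2 hW) hF) (mul_pos (inv_pos.2 hW) hF)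
  linarith

theorem FF_mono (n m : ℕ) (hm : 2 * (m + 1) ≤ n.choose 2) : FF n m ≤ FF n (m + 1) := by
  have h := FF_LC n m (n.choose 2 - (m + 1)) (by omega)
  have e1 : n.choose 2 - (m + 1) + 1 = n.choose 2 - m := by omega
  rw [e1, FF_symm n m (by omega), FF_symm n (m + 1) (by omega)] at h
  have h2 : (FF n m : ℝ) ≤ FF n (m + 1) := by nlinarith [Nat.cast_nonneg (α := ℝ) (FF n m), Nat.cast_nonneg (α := ℝ) (FF n (m+1))]
  exact_mod_cast h2

theorem sm_update (n : ℕ) (c : ℕ → ℕ) (j r : ℕ) (hj : j < n) :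
    sm n (Function.update c j r) + c j = sm n c + r := by
  unfold sm
  rw [← add_sum_erase (range n) _ (mem_range.2 hj), ← add_sum_erase (range n) c (mem_range.2 hj)]
  rw [Function.update_self]
  have : ∑ x ∈ (range n).erase j, Function.update c j r x = ∑ x ∈ (range n).erase j, c x :=
    sum_congr rfl fun x hx => by rw [Function.update_of_ne (ne_of_mem_erase hx)]
  rw [this]
  omega

theorem FF_ratio (n m : ℕ) : (m + 1) * FF n (m + 1) ≤ (m + n) * FF n m := by
  have h1 : (m + 1) * FF n (m + 1) =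
      ∑ j ∈ range n, ∑ c ∈ codes n with sm n c = m + 1, c j := by
    rw [sum_comm]
    have : ∀ c ∈ (codes n).filter (fun c => sm n c = m + 1), ∑ j ∈ range n, c j = m + 1 :=
      fun c hc => (mem_filter.1 hc).2
    rw [sum_congr rfl this, sum_const, smul_eq_mul, FF, mul_comm]
  have h2 : (m + n) * FF n m = ∑ j ∈ range n, ∑ c ∈ codes n with sm n c = m, (c j + 1) := by
    rw [sum_comm]
    have : ∀ c ∈ (codes n).filter (fun c => sm n c = m), ∑ j ∈ range n, (c j + 1) = m + n := by
      intro c hc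
      rw [sum_add_distrib]
      have := (mem_filter.1 hc).2
      unfold sm at this
      rw [this]; simp
    rw [sum_congr rfl this, sum_const, smul_eq_mul, FF, mul_comm]
  rw [h1, h2]
  refine sum_le_sum fun j hj => ?_
  have hj' := mem_range.1 hj
  have h3 : ∑ c ∈ codes n with sm n c = m + 1, c j =
      ∑ c ∈ (codes n).filter (fun c => sm n c = m + 1) with c j ≠ 0, c j := by
    rw [sum_filter_ne_zero]
  rw [h3]
  have h4 : ∑ c ∈ (codes n).filter (fun c => sm n c = m + 1) with c j ≠ 0, c j =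
      ∑ c ∈ ((codes n).filter (fun c => sm n c = m + 1)).filter (fun c => c j ≠ 0) |>.image
        (fun c => Function.update c j (c j - 1)), (c j + 1) := by
    rw [sum_image]
    · refine sum_congr rfl fun c hc => ?_
      have := (mem_filter.1 hc).2
      rw [Function.update_self]
      omega
    · intro c hc c' hc' h
      have a1 := (mem_filter.1 (mem_coe.1 hc)).2
      have a2 := (mem_filter.1 (mem_coe.1 hc')).2
      simp only at h
      funext x
      by_cases hx : x = j
      · subst hx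
        have := congrFun h x
        rw [Function.update_self, Function.update_self] at this
        omega
      · have := congrFun h x
        rwa [Function.update_of_ne hx, Function.update_of_ne hx] at this
  rw [h4]
  refine sum_le_sum_of_subset fun c hc => ?_
  obtain ⟨c', hc', rfl⟩ := mem_image.1 hc
  rw [mem_filter, mem_filter] at hc'
  obtain ⟨⟨b1, b2⟩, b3⟩ := hc'
  rw [mem_filter]
  have b4 := sm_update n c' j (c' j - 1) hj'
  refine ⟨?_, by omega⟩
  rw [mem_codes] at b1 ⊢
  refine ⟨fun x hx => ?_, fun x hx => ?_⟩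
  · by_cases hxj : x = j
    · subst hxj
      rw [Function.update_self]
      have := b1.1 x hx
      omega
    · rw [Function.update_of_ne hxj]; exact b1.1 x hx
  · rw [Function.update_of_ne (by omega)]; exact b1.2 x hx

/-- The tilting parameter. -/
theorem exists_tilt (n m : ℕ) (hm : 2 * m ≤ n.choose 2) :
    ∃ q : ℝ, 0 ≤ q ∧ q ≤ 1 ∧ (m : ℝ) ≤ q * (m + n) ∧ 0 < q ^ m ∧
      ∀ y : ℤ, ff q Set.univ n y ≤ ff q Set.univ n m := by
  have hmode : ∀ q : ℝ, 0 ≤ q → (∀ y : ℕ, q ^ y * FF n y ≤ q ^ m * FF n m) →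
      ∀ y : ℤ, ff q Set.univ n y ≤ ff q Set.univ n m := by
    intro q hq h y
    rcases lt_or_ge y 0 with h1 | h1
    · rw [ff_neg _ _ _ h1]; exact ff_nonneg hq _ _ _
    · obtain ⟨y, rfl⟩ := Int.eq_ofNat_of_zero_le h1
      rw [ff_eq, ff_eq]
      have hW := WW_pos hq n
      have h2 : q ^ y / WW q n * (FF n y : ℝ) = (q ^ y * FF n y) / WW q n := by ring
      have h3 : q ^ m / WW q n * (FF n m : ℝ) = (q ^ m * FF n m) / WW q n := by ring
      rw [h2, h3]
      exact div_le_div_of_nonneg_right (h y) hW.le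
  rcases Nat.eq_zero_or_pos m with rfl | hmpos
  · refine ⟨0, le_rfl, zero_le_one, by simp, by simp, hmode 0 le_rfl fun y => ?_⟩
    rcases Nat.eq_zero_or_pos y with rfl | hy
    · exact le_rfl
    · rw [zero_pow (by omega), zero_mul]; positivity
  · obtain ⟨k, rfl⟩ := Nat.exists_eq_add_of_le' hmpos
    have hF1 : (0 : ℝ) < FF n (k + 1) := by exact_mod_cast FF_pos n (k + 1) (by omega)
    have hF0 : (0 : ℝ) < FF n k := by exact_mod_cast FF_pos n k (by omega)
    set q : ℝ := FF n k / FF n (k + 1) with hq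
    have hq0 : 0 < q := by positivity
    have hqF : q * FF n (k + 1) = FF n k := by rw [hq]; field_simp
    refine ⟨q, hq0.le, ?_, ?_, by positivity, hmode q hq0.le ?_⟩
    · rw [hq, div_le_one hF1]
      exact_mod_cast FF_mono n k (by omega)
    · have h := FF_ratio n k
      have h2 : ((k : ℝ) + 1) * FF n (k + 1) ≤ (k + n) * FF n k := by exact_mod_cast h
      rw [← hqF] at h2
      have h3 : ((k : ℝ) + 1) * FF n (k + 1) ≤ (k + n) * q * FF n (k + 1) := by linarith
      have h4 := le_of_mul_le_mul_right h3 hF1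
      push_cast
      nlinarith
    · -- the weights increase up to `k + 1` and decrease afterwards
      have hdown : ∀ y, k ≤ y → q ^ (y + 1) * (FF n (y + 1) : ℝ) ≤ q ^ y * FF n y := by
        intro y hy
        have h := FF_LC n k y hy
        rw [← hqF] at h
        have h2 : (FF n (k + 1) : ℝ) * (q * FF n (y + 1)) ≤ FF n (k + 1) * FF n y := by linarith
        have h3 := le_of_mul_le_mul_left h2 hF1
        have h4 := mul_le_mul_of_nonneg_left h3 (pow_nonneg hq0.le y)
        calc q ^ (y + 1) * (FF n (y + 1) : ℝ) = q ^ y * (q * FF n (y + 1)) := by ring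
          _ ≤ _ := h4
      have hup : ∀ y, y ≤ k → q ^ y * (FF n y : ℝ) ≤ q ^ (y + 1) * FF n (y + 1) := by
        intro y hy
        have h := FF_LC n y k hy
        rw [← hqF] at h
        have h2 : (FF n (k + 1) : ℝ) * FF n y ≤ FF n (k + 1) * (q * FF n (y + 1)) := by linarith
        have h3 := le_of_mul_le_mul_left h2 hF1
        have h4 := mul_le_mul_of_nonneg_left h3 (pow_nonneg hq0.le y)
        calc q ^ y * (FF n y : ℝ) ≤ q ^ y * (q * FF n (y + 1)) := h4
          _ = _ := by ring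
      intro y
      rcases le_total y (k + 1) with hy | hy
      · obtain ⟨t, ht⟩ := Nat.exists_eq_add_of_le hy
        induction t generalizing y with
        | zero => rw [ht]; simp
        | succ t ih =>
          refine (hup y (by omega)).trans (ih (y + 1) (by omega) (by omega))
      · obtain ⟨t, rfl⟩ := Nat.exists_eq_add_of_le hy
        induction t with
        | zero => simp
        | succ t ih =>
          exact (hdown (k + 1 + t) (by omega)).trans (ih (by omega))

end Pool.Agent.R82.CP
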