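import Mathlib

/-! Permutations, Lehmer codes and consecutive patterns. -/

set_option autoImplicit false
open Finset

namespace Pool.Agent.R82.CP

/-- The number of inversions of a permutation of `{0,...,n-1}`. -/
def inv {n : ℕ} (σ : Equiv.Perm (Fin n)) : ℕ :=
  (univ.filter fun p : Fin n × Fin n => p.1 < p.2 ∧ σ p.2 < σ p.1).card

/-- `σ` contains `π` as a consecutive pattern. -/
def HasConsec {k n : ℕ} (π : Equiv.Perm (Fin k)) (σ : Equiv.Perm (Fin n)) : Prop :=
  ∃ (i : ℕ) (h : i + k ≤ n), ∀ a b : Fin k,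
    (σ ⟨i + a, by omega⟩ < σ ⟨i + b, by omega⟩ ↔ π a < π b)

/-- the Lehmer code: the number of earlier entries which are larger -/
def code {n : ℕ} (σ : Equiv.Perm (Fin n)) (j : ℕ) : ℕ :=
  if h : j < n then (univ.filter fun l : Fin n => (l : ℕ) < j ∧ σ ⟨j, h⟩ < σ l).card else 0

theorem code_le {n : ℕ} (σ : Equiv.Perm (Fin n)) (j : ℕ) : code σ j ≤ j := by
  unfold code
  split_ifs with h
  · have h1 : (univ.filter fun l : Fin n => (l : ℕ) < j ∧ σ ⟨j, h⟩ < σ l).card
        ≤ (range j).card := by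
      refine card_le_card_of_injOn (fun l => (l : ℕ)) (fun l hl => ?_) (fun l _ l' _ h => Fin.ext h)
      simp only [coe_filter, Set.mem_setOf_eq] at hl
      simpa using hl.2.1
    simpa using h1
  · exact Nat.zero_le _

theorem inv_eq {n : ℕ} (σ : Equiv.Perm (Fin n)) : inv σ = ∑ j ∈ range n, code σ j := by
  rw [← Fin.sum_univ_eq_sum_range]
  unfold inv
  rw [card_filter, Fintype.sum_prod_type_right]
  refine sum_congr rfl fun j _ => ?_
  rw [code, dif_pos j.2, card_filter]
  rfl

theorem code_eq {n : ℕ} (σ : Equiv.Perm (Fin n)) (j : ℕ) (h : j < n) :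
    code σ j = (univ.filter fun l : Fin n => (l : ℕ) < j ∧ σ ⟨j, h⟩ < σ l).card := by
  rw [code, dif_pos h]

/-- `rr d a t`: the number of the entries before `a+1+t` which are larger than entry `a`. -/
def rr (d : ℕ → ℕ) (a : ℕ) : ℕ → ℕ
  | 0 => d a
  | t + 1 => rr d a t + if d (a + 1 + t) ≤ rr d a t then 1 else 0

theorem rr_ge (d : ℕ → ℕ) (a t : ℕ) : d a ≤ rr d a t := by
  induction t with
  | zero => exact le_rfl
  | succ t ih => exact le_trans ih (Nat.le_add_right _ _)

theorem rr_le (d : ℕ → ℕ) (a t : ℕ) : rr d a t ≤ d a + t := by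
  induction t with
  | zero => exact le_rfl
  | succ t ih =>
    simp only [rr]
    split_ifs <;> omega

theorem rr_shift (d : ℕ → ℕ) (i a t : ℕ) : rr (fun x => d (i + x)) a t = rr d (i + a) t := by
  induction t with
  | zero => rfl
  | succ t ih =>
    simp only [rr, ih]
    have : i + (a + 1 + t) = i + a + 1 + t := by ring
    rw [this]

theorem rr_congr (d e : ℕ → ℕ) (a t : ℕ) (h : ∀ x, x ≤ a + t → d x = e x) :
    rr d a t = rr e a t := by
  induction t with
  | zero => exact h a (by omega)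
  | succ t ih =>
    simp only [rr]
    rw [ih (fun x hx => h x (by omega)), h (a + 1 + t) (by omega)]

theorem lt_iff_code {n : ℕ} (σ : Equiv.Perm (Fin n)) (a b : ℕ) (hab : a < b) (hb : b < n) :
    σ ⟨a, by omega⟩ < σ ⟨b, hb⟩ ↔ code σ b ≤
      (univ.filter fun l : Fin n => (l : ℕ) < b ∧ σ ⟨a, by omega⟩ < σ l).card := by
  rw [code_eq σ b hb]
  constructor
  · intro h
    refine card_le_card fun l hl => ?_
    simp only [mem_filter, mem_univ, true_and] at hl ⊢
    exact ⟨hl.1, h.trans hl.2⟩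
  · intro h
    by_contra hcon
    have hne : σ ⟨a, by omega⟩ ≠ σ ⟨b, hb⟩ := by
      intro h1
      have h2 := σ.injective h1
      simp only [Fin.mk.injEq] at h2
      omega
    have hlt : σ ⟨b, hb⟩ < σ ⟨a, by omega⟩ := lt_of_le_of_ne (not_lt.1 hcon) (Ne.symm hne)
    have h3 : (univ.filter fun l : Fin n => (l : ℕ) < b ∧ σ ⟨a, by omega⟩ < σ l).card <
        (univ.filter fun l : Fin n => (l : ℕ) < b ∧ σ ⟨b, hb⟩ < σ l).card := by
      refine card_lt_card ?_
      rw [ssubset_iff_of_subset]
      · refine ⟨⟨a, by omega⟩, ?_, ?_⟩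
        · simp only [mem_filter, mem_univ, true_and]
          exact ⟨hab, hlt⟩
        · simp only [mem_filter, mem_univ, true_and, lt_irrefl, and_false, not_false_eq_true]
      · intro l hl
        simp only [mem_filter, mem_univ, true_and] at hl ⊢
        exact ⟨hl.1, hlt.trans hl.2⟩
    omega

theorem rr_code {n : ℕ} (σ : Equiv.Perm (Fin n)) (a : ℕ) : ∀ (t : ℕ) (h : a + 1 + t ≤ n),
    rr (code σ) a t =
      (univ.filter fun l : Fin n => (l : ℕ) < a + 1 + t ∧ σ ⟨a, by omega⟩ < σ l).card := by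
  intro t
  induction t with
  | zero =>
    intro h
    simp only [rr, add_zero]
    rw [code_eq σ a (by omega)]
    congr 1
    ext l
    simp only [mem_filter, mem_univ, true_and]
    constructor
    · rintro ⟨h1, h2⟩; exact ⟨by omega, h2⟩
    · rintro ⟨h1, h2⟩
      refine ⟨?_, h2⟩
      rcases Nat.lt_succ_iff_lt_or_eq.1 h1 with h3 | h3
      · exact h3
      · exfalso
        have : l = ⟨a, by omega⟩ := Fin.ext h3
        rw [this] at h2
        exact lt_irrefl _ h2
  | succ t ih =>
    intro h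
    have ih' := ih (by omega)
    simp only [rr]
    have hlt := lt_iff_code σ a (a + 1 + t) (by omega) (by omega)
    rw [← ih'] at hlt
    have hset : (univ.filter fun l : Fin n => (l : ℕ) < a + 1 + (t + 1) ∧ σ ⟨a, by omega⟩ < σ l)
        = (univ.filter fun l : Fin n => (l : ℕ) < a + 1 + t ∧ σ ⟨a, by omega⟩ < σ l) ∪
          (if σ ⟨a, by omega⟩ < σ ⟨a + 1 + t, by omega⟩ then
            {(⟨a + 1 + t, by omega⟩ : Fin n)} else ∅) := by
      ext l
      simp only [mem_union, mem_filter, mem_univ, true_and]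
      constructor
      · rintro ⟨h1, h2⟩
        by_cases h3 : (l : ℕ) < a + 1 + t
        · exact Or.inl ⟨h3, h2⟩
        · right
          have h4 : l = ⟨a + 1 + t, by omega⟩ := Fin.ext (by simp; omega)
          rw [h4] at h2
          rw [if_pos h2, h4]
          exact mem_singleton_self _
      · rintro (⟨h1, h2⟩ | h1)
        · exact ⟨by omega, h2⟩
        · split_ifs at h1 with h2
          · rw [mem_singleton] at h1
            rw [h1]
            exact ⟨by simp, h2⟩
          · simp at h1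
    rw [hset, card_union_of_disjoint, ← ih']
    · congr 1
      by_cases h5 : σ ⟨a, by omega⟩ < σ ⟨a + 1 + t, by omega⟩
      · rw [if_pos h5, if_pos (hlt.1 h5), card_singleton]
      · rw [if_neg h5, if_neg (fun h => h5 (hlt.2 h)), card_empty]
    · rw [disjoint_left]
      intro l hl hl2
      simp only [mem_filter, mem_univ, true_and] at hl
      split_ifs at hl2
      · rw [mem_singleton] at hl2
        rw [hl2] at hl
        simp at hl
      · simp at hl2

theorem ord_code {n : ℕ} (σ : Equiv.Perm (Fin n)) (a t : ℕ) (h : a + 1 + t < n) :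
    σ ⟨a, by omega⟩ < σ ⟨a + 1 + t, h⟩ ↔ code σ (a + 1 + t) ≤ rr (code σ) a t := by
  rw [rr_code σ a t (by omega)]
  exact lt_iff_code σ a (a + 1 + t) (by omega) h

/-- the code of a block forces the pattern `π` -/
def Good {k : ℕ} (π : Equiv.Perm (Fin k)) (d : ℕ → ℕ) : Prop :=
  ∀ a t : ℕ, ∀ h : a + 1 + t < k,
    (d (a + 1 + t) ≤ rr d a t ↔ π ⟨a, by omega⟩ < π ⟨a + 1 + t, h⟩)

theorem good_consec {k n : ℕ} (π : Equiv.Perm (Fin k)) (σ : Equiv.Perm (Fin n)) (i : ℕ)
    (h : i + k ≤ n) (hg : Good π (fun x => code σ (i + x))) : HasConsec π σ := by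
  have key : ∀ a b : Fin k, a < b →
      (σ ⟨i + a, by omega⟩ < σ ⟨i + b, by omega⟩ ↔ π a < π b) := by
    intro a b hab
    have hab' : (a : ℕ) < b := hab
    obtain ⟨t, ht⟩ : ∃ t, (b : ℕ) = a + 1 + t := ⟨b - a - 1, by omega⟩
    have h1 := hg a t (by omega)
    have h2 := ord_code σ (i + a) t (by omega)
    rw [rr_shift] at h1
    have e1 : (⟨i + a + 1 + t, by omega⟩ : Fin n) = ⟨i + b, by omega⟩ := by
      ext; simp; omega
    have e2 : (⟨(a : ℕ) + 1 + t, by omega⟩ : Fin k) = b := by
      ext; simp; omega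
    rw [e1] at h2
    rw [e2] at h1
    rw [h2, ← h1]
    have e3 : i + ((a : ℕ) + 1 + t) = i + a + 1 + t := by ring
    change _ ↔ code σ (i + ((a : ℕ) + 1 + t)) ≤ _
    rw [e3]
  refine ⟨i, h, fun a b => ?_⟩
  rcases lt_trichotomy a b with hab | hab | hab
  · exact key a b hab
  · subst hab; simp
  · have h1 := key b a hab
    have h2 : σ ⟨i + a, by omega⟩ ≠ σ ⟨i + b, by omega⟩ := by
      intro h3
      have h4 := σ.injective h3
      simp only [Fin.mk.injEq] at h4
      have : (b : ℕ) < a := hab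
      omega
    have h3 : π a ≠ π b := fun h4 => (ne_of_gt hab) (π.injective h4)
    constructor
    · intro h4
      by_contra h5
      exact lt_asymm h4 (h1.2 (lt_of_le_of_ne (not_lt.1 h5) (Ne.symm h3)))
    · intro h4
      by_contra h5
      exact lt_asymm h4 (h1.1 (lt_of_le_of_ne (not_lt.1 h5) (Ne.symm h2)))

theorem good_self {k : ℕ} (π : Equiv.Perm (Fin k)) : Good π (code π) := by
  intro a t h
  exact (ord_code π a t h).symm

theorem good_exact {k : ℕ} (π : Equiv.Perm (Fin k)) (d : ℕ → ℕ)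
    (h : ∀ a, a < k → d a = code π a) : Good π d := by
  intro a t ht
  rw [rr_congr d (code π) a t (fun x hx => h x (by omega)), h (a + 1 + t) ht]
  exact good_self π a t ht

theorem good_window {k : ℕ} (π : Equiv.Perm (Fin k)) (d : ℕ → ℕ) (L : ℕ)
    (h : ∀ a : Fin k, (k - 1 - (π a : ℕ)) * L ≤ d a ∧ d a + k < (k - 1 - (π a : ℕ)) * L + L) :
    Good π d := by
  intro a t ht
  obtain ⟨h1, h2⟩ := h ⟨a, by omega⟩
  obtain ⟨h3, h4⟩ := h ⟨a + 1 + t, ht⟩
  simp only at h1 h2 h3 h4
  set u : ℕ := (π ⟨a, by omega⟩ : ℕ) with hu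
  set v : ℕ := (π ⟨a + 1 + t, ht⟩ : ℕ) with hv
  have hu1 : u < k := (π ⟨a, by omega⟩).2
  have hv1 : v < k := (π ⟨a + 1 + t, ht⟩).2
  have hr1 := rr_ge d a t
  have hr2 := rr_le d a t
  have hne : u ≠ v := by
    intro h5
    have h6 := π.injective (Fin.ext h5)
    simp only [Fin.mk.injEq] at h6
    omega
  have hlt : (π ⟨a, by omega⟩ < π ⟨a + 1 + t, ht⟩) ↔ u < v := Iff.rfl
  rw [hlt]
  constructor
  · intro h5
    by_contra h6
    have h7 : k - 1 - u + 1 ≤ k - 1 - v := by omega
    have h8 : (k - 1 - u + 1) * L ≤ (k - 1 - v) * L := Nat.mul_le_mul_right _ h7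
    have h9 : (k - 1 - u + 1) * L = (k - 1 - u) * L + L := by ring
    omega
  · intro h5
    have h7 : k - 1 - v + 1 ≤ k - 1 - u := by omega
    have h8 : (k - 1 - v + 1) * L ≤ (k - 1 - u) * L := Nat.mul_le_mul_right _ h7
    have h9 : (k - 1 - v + 1) * L = (k - 1 - v) * L + L := by ring
    omega

theorem code_injective (n : ℕ) :
    Function.Injective (fun σ : Equiv.Perm (Fin n) => code σ) := by
  intro σ τ h
  simp only at h
  have key : ∀ a b : Fin n, (σ a < σ b ↔ τ a < τ b) := by
    have h1 : ∀ a b : Fin n, a < b → (σ a < σ b ↔ τ a < τ b) := by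
      intro a b hab
      have hab' : (a : ℕ) < b := hab
      obtain ⟨t, ht⟩ : ∃ t, (b : ℕ) = a + 1 + t := ⟨b - a - 1, by omega⟩
      have e1 : b = ⟨(a : ℕ) + 1 + t, by omega⟩ := Fin.ext ht
      have h2 := ord_code σ a t (by omega)
      have h3 := ord_code τ a t (by omega)
      rw [h, ← h3, ← e1] at h2
      exact h2
    intro a b
    rcases lt_trichotomy a b with hab | hab | hab
    · exact h1 a b hab
    · subst hab; simp
    · have h2 := h1 b a hab
      have h3 : σ a ≠ σ b := fun h4 => (ne_of_gt hab) (σ.injective h4)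
      have h4 : τ a ≠ τ b := fun h5 => (ne_of_gt hab) (τ.injective h5)
      constructor
      · intro h5
        by_contra h6
        exact lt_asymm h5 (h2.2 (lt_of_le_of_ne (not_lt.1 h6) (Ne.symm h4)))
      · intro h5
        by_contra h6
        exact lt_asymm h5 (h2.1 (lt_of_le_of_ne (not_lt.1 h6) (Ne.symm h3)))
  have hmono : StrictMono (fun x => τ (σ.symm x)) := by
    intro x y hxy
    have := (key (σ.symm x) (σ.symm y)).1 (by simpa using hxy)
    exact this
  have hid : (fun x => τ (σ.symm x)) = fun x => x := by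
    refine (StrictMono.range_inj hmono strictMono_id).1 ?_
    have : Function.Surjective (fun x => τ (σ.symm x)) := (σ.symm.trans τ).surjective
    rw [this.range_eq]
    simp
  ext x
  have := congrFun hid (σ x)
  simp only [Equiv.symm_apply_apply] at this
  rw [this]

end Pool.Agent.R82.CP
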